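import Pool.Agent.H26.FG.T1M

/-!
# The left adjoint action and the comultiplication
-/

open CategoryTheory TensorProduct Coalgebra HopfAlgebra
open Pool.Agent.H26.FG Pool.Agent.H26.FG.LSaux

universe u

namespace Pool.Agent.H42.HA

variable {k : Type u} [Field k] {C : Type u} [Ring C] [HopfAlgebra k C]

lemma adl_sw (c x : C) : adl k c x = sw k (fun u v => u * x * antipode k v) c := by
  unfold adl
  rw [sw_comul, map_sw, map_sw]
  rfl

/-- The adjoint action as a bilinear map. -/
noncomputable def adlL : C →ₗ[k] C →ₗ[k] C :=
  LinearMap.mk₂ k (adl k)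
    (fun c c' x => by unfold adl; rw [map_add, map_add, map_add])
    (fun r c x => by unfold adl; rw [map_smul, map_smul, map_smul])
    (fun c x y => by
      rw [adl_sw, adl_sw, adl_sw]
      unfold sw
      rw [← Finset.sum_add_distrib]
      exact Finset.sum_congr rfl fun i _ => by simp only [mul_add, add_mul])
    (fun r c x => by
      rw [adl_sw, adl_sw]
      unfold sw
      rw [Finset.smul_sum]
      exact Finset.sum_congr rfl fun i _ => by simp only [mul_smul_comm, smul_mul_assoc])

@[simp] lemma adlL_apply (c x : C) : adlL (k := k) c x = adl k c x := rfl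

lemma adl_add_left (c d x : C) : adl k (c + d) x = adl k c x + adl k d x :=
  LinearMap.map_add₂ (adlL (k := k)) c d x

lemma adl_smul_left (r : k) (c x : C) : adl k (r • c) x = r • adl k c x :=
  LinearMap.map_smul₂ (adlL (k := k)) r c x

lemma adl_add_right (c x y : C) : adl k c (x + y) = adl k c x + adl k c y :=
  map_add (adlL (k := k) c) x y

lemma adl_smul_right (r : k) (c x : C) : adl k c (r • x) = r • adl k c x :=
  map_smul (adlL (k := k) c) r x

lemma adl_zero_right (c : C) : adl k c 0 = 0 := map_zero (adlL (k := k) c)

lemma adl_sub_right (c x y : C) : adl k c (x - y) = adl k c x - adl k c y :=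
  map_sub (adlL (k := k) c) x y

lemma adl_one_left (x : C) : adl k 1 x = x := by
  unfold adl
  rw [Bialgebra.comul_one, Algebra.TensorProduct.one_def, TensorProduct.map_tmul,
    LinearMap.mul'_apply, HopfAlgebra.antipode_one, LinearMap.mulRight_apply, one_mul, mul_one]

lemma counit_adl (c x : C) :
    counit (R := k) (adl k c x) = counit (R := k) c * counit (R := k) x := by
  rw [adl_sw, map_sw]
  have h : ∀ u v : C, counit (R := k) (u * x * antipode k v) =
      counit (R := k) x * counit (R := k) (u * antipode k v) := by
    intro u v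
    rw [Bialgebra.counit_mul, Bialgebra.counit_mul, Bialgebra.counit_mul]
    ring
  simp only [h]
  have h2 := map_sw (k := k) (counit (R := k) x • (counit (R := k) (A := C)))
    (fun u v => u * antipode k v) c
  rw [sw_mul_S] at h2
  simp only [LinearMap.smul_apply, smul_eq_mul, map_smul, Bialgebra.counit_one] at h2
  rw [← h2]
  ring

/-- `ad(1) = ` product rule: `ad(c d) = ad(c) ad(d)`. -/
lemma adl_mul_left (c d x : C) : adl k (c * d) x = adl k c (adl k d x) := by
  have hB : Bi k (fun u v : C => u * x * antipode k v) := by
    constructor <;> intros <;> simp [add_mul, mul_add]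
  have h1 : comul (R := k) (c * d) = ∑ ij ∈ (ℛ k c).index ×ˢ (ℛ k d).index,
      ((ℛ k c).left ij.1 * (ℛ k d).left ij.2) ⊗ₜ[k] ((ℛ k c).right ij.1 * (ℛ k d).right ij.2) := by
    rw [Bialgebra.comul_mul]
    conv_lhs => rw [← (ℛ k c).eq, ← (ℛ k d).eq]
    rw [Finset.sum_mul_sum, Finset.sum_product]
    simp only [Algebra.TensorProduct.tmul_mul_tmul]
  rw [adl_sw, hB.sw_eq h1, adl_sw, adl_sw]
  unfold sw
  rw [Finset.sum_product]
  refine Finset.sum_congr rfl fun i _ => ?_
  simp only [Finset.mul_sum, Finset.sum_mul]
  refine Finset.sum_congr rfl fun j _ => ?_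
  rw [antipode_mul_antidistrib]
  simp only [mul_assoc]

/-- `c x = ∑ ad(c₁)(x) c₂`. -/
lemma sw_adl_mul (c x : C) : sw k (fun u v => adl k u x * v) c = c * x := by
  have h1 : ∀ u v : C, adl k u x * v = sw k (fun a b => a * x * antipode k b * v) u := by
    intro u v
    rw [adl_sw, sw_mul]
  simp only [h1]
  have hT : Tri k (fun a b v : C => a * x * antipode k b * v) := by
    constructor <;> intros <;> simp [add_mul, mul_add]
  rw [coas hT]
  have h2 : ∀ a b : C, sw k (fun u v => a * x * antipode k u * v) b =
      counit (R := k) b • (LinearMap.mulRight k x) a := by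
    intro a b
    have := mul_sw (k := k) (fun u v => antipode k u * v) b (a * x)
    simp only [← mul_assoc] at this
    rw [← this, sw_S_mul, mul_smul_comm, mul_one]
    rfl
  simp only [h2]
  rw [sw_eps_r]
  rfl

/-- An element on which the adjoint action is trivial is central. -/
lemma comm_of_adl {x : C} (hx : ∀ c, adl k c x = counit (R := k) c • x) (c : C) :
    c * x = x * c := by
  rw [← sw_adl_mul (k := k) c x]
  simp only [hx]
  have h := sw_eps_l (k := k) (LinearMap.mulLeft k x) c
  simp only [LinearMap.mulLeft_apply] at h
  rw [← h]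
  congr 1
  funext u v
  rw [smul_mul_assoc]

/-- `U f x c = ∑ f(c₁ x S(c₃)) c₂`. -/
noncomputable def UU (f : C →ₗ[k] k) (x c : C) : C :=
  sw k (fun u b => sw k (fun m z => f (u * x * antipode k z) • m) b) c

lemma counit_UU (f : C →ₗ[k] k) (x c : C) :
    counit (R := k) (UU f x c) = f (adl k c x) := by
  unfold UU
  rw [map_sw]
  have h1 : ∀ u b : C, counit (R := k) (sw k (fun m z => f (u * x * antipode k z) • m) b) =
      f (u * x * antipode k b) := by
    intro u b
    rw [map_sw]
    have := sw_eps_l (k := k) (f ∘ₗ LinearMap.mulLeft k (u * x) ∘ₗ antipode k) b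
    simp only [LinearMap.comp_apply, LinearMap.mulLeft_apply] at this
    rw [← this]
    congr 1
    funext m z
    rw [map_smul, smul_eq_mul, smul_eq_mul, mul_comm]
  simp only [h1]
  rw [adl_sw, map_sw]

/-- The formula `(f ⊗ id) Δ(ad(c) w) = ∑ ad(U f w₁ c)(w₂)`. -/
lemma LamL_comul_adl (f : C →ₗ[k] k) (c w : C) :
    LamL f (comul (R := k) (adl k c w)) = sw k (fun x y => adl k (UU f x c) y) w := by
  have e0 : ∀ a b x y : C, LamL f ((a ⊗ₜ[k] b) * (x ⊗ₜ[k] y)) = f (a * x) • (b * y) := by
    intro a b x y
    rw [Algebra.TensorProduct.tmul_mul_tmul, LamL_tmul]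
  -- the four-fold Sweedler sum for fixed w-components
  have key : ∀ p q : C, sw k (fun x y => sw k (fun a b => sw k (fun a' b' =>
      f (a * p * antipode k b') • (b * q * antipode k a')) y) x) c = adl k (UU f p c) q := by
    intro p q
    have hT : Tri k (fun a b y : C => sw k (fun a' b' =>
        f (a * p * antipode k b') • (b * q * antipode k a')) y) := by
      have hB : ∀ a b : C, Bi k (fun a' b' : C =>
          f (a * p * antipode k b') • (b * q * antipode k a')) := by
        intro a b
        constructor <;> intros <;>
          simp only [mul_add, add_smul, smul_add, map_add, map_smul,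
            mul_smul_comm, smul_eq_mul, smul_smul, mul_comm]
      constructor
      · intro x x' y z
        unfold sw
        rw [← Finset.sum_add_distrib]
        exact Finset.sum_congr rfl fun i _ => by simp [add_mul, add_smul]
      · intro r x y z
        unfold sw
        rw [Finset.smul_sum]
        exact Finset.sum_congr rfl fun i _ => by simp [smul_smul]
      · intro x y y' z
        unfold sw
        rw [← Finset.sum_add_distrib]
        exact Finset.sum_congr rfl fun i _ => by simp [add_mul]
      · intro r x y z
        unfold sw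
        rw [Finset.smul_sum]
        refine Finset.sum_congr rfl fun i _ => ?_
        dsimp only
        rw [smul_mul_assoc, smul_mul_assoc, smul_comm]
      · intro x y z z'
        rw [(hB x y).sw_lift, (hB x y).sw_lift, (hB x y).sw_lift, map_add, map_add]
      · intro r x y z
        rw [(hB x y).sw_lift, (hB x y).sw_lift, map_smul, map_smul]
    rw [coas hT]
    have h2 : ∀ a b : C, sw k (fun v y => sw k (fun a' b' =>
        f (a * p * antipode k b') • (v * q * antipode k a')) y) b =
        adl k (sw k (fun m z => f (a * p * antipode k z) • m) b) q := by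
      intro a b
      have hT2 : Tri k (fun v a' b' : C =>
          f (a * p * antipode k b') • (v * q * antipode k a')) := by
        constructor <;> intros <;>
          simp only [mul_add, add_mul, add_smul, smul_add, map_add, map_smul, smul_mul_assoc,
            mul_smul_comm, smul_eq_mul, smul_smul, mul_comm]
      rw [← coas hT2]
      have := map_sw (k := k) ((adlL (k := k)).flip q)
        (fun m z => f (a * p * antipode k z) • m) b
      simp only [LinearMap.flip_apply, adlL_apply] at this
      rw [this]
      congr 1
      funext m z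
      rw [adl_smul_left, adl_sw, smul_sw]
    simp only [h2]
    have := map_sw (k := k) ((adlL (k := k)).flip q)
      (fun u b => sw k (fun m z => f (u * p * antipode k z) • m) b) c
    simp only [LinearMap.flip_apply, adlL_apply] at this
    unfold UU
    exact this.symm
  -- expand
  have h3 : ∀ x y : C, comul (R := k) (x * w * antipode k y) =
      sw k (fun a b => (a ⊗ₜ[k] b : C ⊗[k] C)) x * comul (R := k) w *
        sw k (fun a' b' => (antipode k b' ⊗ₜ[k] antipode k a' : C ⊗[k] C)) y := by
    intro x y
    rw [Bialgebra.comul_mul, Bialgebra.comul_mul, comul_antipode, ← sw_comul]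
  rw [adl_sw, map_sw, map_sw]
  simp only [h3]
  conv_lhs => rw [← (ℛ k w).eq]
  have h4 : ∀ x y : C, LamL f (sw k (fun a b => (a ⊗ₜ[k] b : C ⊗[k] C)) x *
      (∑ i ∈ (ℛ k w).index, (ℛ k w).left i ⊗ₜ[k] (ℛ k w).right i) *
        sw k (fun a' b' => (antipode k b' ⊗ₜ[k] antipode k a' : C ⊗[k] C)) y) =
      ∑ i ∈ (ℛ k w).index, sw k (fun a b => sw k (fun a' b' =>
      f (a * (ℛ k w).left i * antipode k b') • (b * (ℛ k w).right i * antipode k a')) y) x := by
    intro x y
    rw [Finset.mul_sum, Finset.sum_mul, map_sum]
    refine Finset.sum_congr rfl fun i _ => ?_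
    rw [sw_mul, sw_mul, map_sw]
    congr 1
    funext a b
    rw [mul_sw, map_sw]
    congr 1
    funext a' b'
    rw [Algebra.TensorProduct.tmul_mul_tmul, e0]
  simp only [h4]
  have h5 : sw k (fun x y => ∑ i ∈ (ℛ k w).index, sw k (fun a b => sw k (fun a' b' =>
      f (a * (ℛ k w).left i * antipode k b') • (b * (ℛ k w).right i * antipode k a')) y) x) c =
      ∑ i ∈ (ℛ k w).index, sw k (fun x y => sw k (fun a b => sw k (fun a' b' =>
      f (a * (ℛ k w).left i * antipode k b') • (b * (ℛ k w).right i * antipode k a')) y) x) c := by
    unfold sw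
    rw [Finset.sum_comm]
  rw [h5]
  simp only [key]
  rfl

end Pool.Agent.H42.HA
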