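import Pool.Agent.H42.HA.Cen

/-!
# The adjoint action is multiplicative
-/

open CategoryTheory TensorProduct Coalgebra HopfAlgebra WithConv
open Pool.Agent.H26.FG Pool.Agent.H26.FG.LSaux

universe u

namespace Pool.Agent.H42.HA

variable {k : Type u} [Field k] {C : Type u} [Ring C] [HopfAlgebra k C]

/-- `ad(c)(x y) = ∑ ad(c₁)(x) ad(c₂)(y)`. -/
lemma adl_mul_right (c x y : C) :
    adl k c (x * y) = sw k (fun a b => adl k a x * adl k b y) c := by
  have h1 : ∀ a b : C, adl k a x * adl k b y =
      sw k (fun p q => sw k (fun s t => (p * x * (antipode k q * s)) * y * antipode k t) b) a := by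
    intro a b
    rw [adl_sw, adl_sw, sw_mul]
    congr 1
    funext p q
    rw [mul_sw]
    congr 1
    funext s t
    simp only [mul_assoc]
  simp only [h1]
  have hT : Tri k (fun p q b : C => sw k (fun s t =>
      (p * x * (antipode k q * s)) * y * antipode k t) b) := by
    have hB : ∀ p q : C, Bi k (fun s t =>
        (p * x * (antipode k q * s)) * y * antipode k t) := by
      intro p q
      constructor <;> intros <;>
        simp only [mul_add, add_mul, map_add, map_smul, mul_smul_comm, smul_mul_assoc]
    constructor
    · intro p p' q b
      unfold sw
      rw [← Finset.sum_add_distrib]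
      exact Finset.sum_congr rfl fun i _ => by simp only [add_mul]
    · intro r p q b
      unfold sw
      rw [Finset.smul_sum]
      exact Finset.sum_congr rfl fun i _ => by simp only [smul_mul_assoc]
    · intro p q q' b
      unfold sw
      rw [← Finset.sum_add_distrib]
      exact Finset.sum_congr rfl fun i _ => by simp only [map_add, add_mul, mul_add]
    · intro r p q b
      unfold sw
      rw [Finset.smul_sum]
      exact Finset.sum_congr rfl fun i _ => by
        simp only [map_smul, smul_mul_assoc, mul_smul_comm]
    · intro p q b b'
      rw [(hB p q).sw_lift, (hB p q).sw_lift, (hB p q).sw_lift, map_add, map_add]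
    · intro r p q b
      rw [(hB p q).sw_lift, (hB p q).sw_lift, map_smul, map_smul]
  rw [coas hT]
  have h2 : ∀ p z : C, sw k (fun q b => sw k (fun s t =>
      (p * x * (antipode k q * s)) * y * antipode k t) b) z =
      p * (x * y) * antipode k z := by
    intro p z
    have hT2 : Tri k (fun q s t : C => (p * x * (antipode k q * s)) * y * antipode k t) := by
      constructor <;> intros <;>
        simp only [mul_add, add_mul, map_add, map_smul, mul_smul_comm, smul_mul_assoc]
    rw [← coas hT2]
    have h3 : ∀ u t : C, sw k (fun q s => (p * x * (antipode k q * s)) * y * antipode k t) u =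
        counit (R := k) u • (LinearMap.mulLeft k (p * (x * y)) ∘ₗ antipode k) t := by
      intro u t
      have h4 : ∀ q s : C, (p * x * (antipode k q * s)) * y * antipode k t =
          (p * x) * (antipode k q * s) * (y * antipode k t) := by
        intro q s
        simp only [mul_assoc]
      simp only [h4]
      rw [← sw_mul, ← mul_sw, sw_S_mul]
      simp only [mul_smul_comm, smul_mul_assoc, mul_one, LinearMap.comp_apply,
        LinearMap.mulLeft_apply, mul_assoc]
    simp only [h3]
    rw [sw_eps_l]
    rfl
  simp only [h2]
  rw [adl_sw]

end Pool.Agent.H42.HA
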