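import Pool.Agent.H42.HA.Conv

/-!
# Unipotent actions: a central primitive element
-/

open CategoryTheory TensorProduct Coalgebra HopfAlgebra WithConv
open Pool.Agent.H26.FG Pool.Agent.H26.FG.LSaux

universe u

namespace Pool.Agent.H42.HA

variable {k : Type u} [Field k] {A C B : Type u} [Ring A] [HopfAlgebra k A]
  [Ring C] [HopfAlgebra k C] [Ring B] [HopfAlgebra k B]

/-- The left adjoint action of `C` on `A` is unipotent: all products of `n` elements of `C⁺`
kill `A⁺`. -/
def UnipAct (ι : A →ₐc[k] C) : Prop :=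
  ∃ n : ℕ, ∀ l : List C, l.length = n → (∀ c ∈ l, counit (R := k) c = 0) →
    ∀ a : A, counit (R := k) a = 0 → adl k l.prod (ι a) = 0

lemma LamL_map (ι : A →ₐc[k] C) (f : C →ₗ[k] k) (a : A) :
    LamL f (comul (R := k) (ι a)) =
      ι (LamL (f ∘ₗ (AlgHomClass.toAlgHom ι).toLinearMap) (comul (R := k) a)) := by
  rw [h85_comul]
  generalize comul (R := k) a = t
  induction t using TensorProduct.induction_on with
  | zero => simp
  | add x y hx hy => simp only [map_add, hx, hy]
  | tmul x y =>
    rw [TensorProduct.map_tmul, LamL_tmul, LamL_tmul, map_smul]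
    rfl

/-- The action on a primitive element and the operators `T f`. -/
lemma LamL_adl_prim (f : C →ₗ[k] k) (c w : C)
    (hw : comul (R := k) w = w ⊗ₜ[k] 1 + 1 ⊗ₜ[k] w) :
    LamL f (comul (R := k) (adl k c w)) - algebraMap k C (f (adl k c w)) =
      adl k (UU f 1 c) w := by
  have hB : Bi k (fun x y : C => adl k (UU f x c) y) := by
    have h1 : ∀ x x', UU f (x + x') c = UU f x c + UU f x' c := by
      intro x x'
      unfold UU sw
      rw [← Finset.sum_add_distrib]
      refine Finset.sum_congr rfl fun i _ => ?_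
      rw [← Finset.sum_add_distrib]
      refine Finset.sum_congr rfl fun j _ => ?_
      dsimp only
      rw [mul_add, add_mul, map_add, add_smul]
    have h2 : ∀ (r : k) x, UU f (r • x) c = r • UU f x c := by
      intro r x
      unfold UU sw
      rw [Finset.smul_sum]
      refine Finset.sum_congr rfl fun i _ => ?_
      rw [Finset.smul_sum]
      refine Finset.sum_congr rfl fun j _ => ?_
      dsimp only
      rw [mul_smul_comm, smul_mul_assoc, map_smul, smul_eq_mul, mul_smul]
    constructor
    · intro x x' y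
      rw [h1, adl_add_left]
    · intro r x y
      rw [h2, adl_smul_left]
    · intro x y y'
      rw [adl_add_right]
    · intro r x y
      rw [adl_smul_right]
  have h0 : comul (R := k) w = ∑ i : Fin 2, (![w, 1] i) ⊗ₜ[k] (![1, w] i) := by
    rw [hw, Fin.sum_univ_two]
    rfl
  rw [LamL_comul_adl, hB.sw_eq h0, Fin.sum_univ_two]
  simp only [Matrix.cons_val_zero, Matrix.cons_val_one]
  have h3 : adl k (UU f w c) (1 : C) = algebraMap k C (f (adl k c w)) := by
    rw [T1M_adl (k := k) _ 1 (fun d => by rw [one_mul, mul_one]), counit_UU,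
      Algebra.algebraMap_eq_smul_one]
  rw [h3, add_sub_cancel_left]

/-- `ε (U f 1 c) = 0` for `f(1) = 0`. -/
lemma counit_UU_one (f : C →ₗ[k] k) (hf : f 1 = 0) (c : C) :
    counit (R := k) (UU f 1 c) = 0 := by
  rw [counit_UU, T1M_adl (k := k) _ 1 (fun d => by rw [one_mul, mul_one]), map_smul, hf,
    smul_zero]

/-- If `A` is not trivial and the action of `C` on `A` is unipotent, then there is a primitive
element of `A` which is central in `C`. -/
theorem exists_central_prim [Module.Finite k A] {ι : A →ₐc[k] C} (hinj : Function.Injective ι)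
    (hadl : ∀ (c : C) (a : A), ∃ a' : A, ι a' = adl k c (ι a)) (hN : NilDual k A)
    (hU : UnipAct ι) (a₀ : A) (ha₀ : counit (R := k) a₀ = 0) (ha₀' : a₀ ≠ 0) :
    ∃ w : A, w ≠ 0 ∧ comul (R := k) w = w ⊗ₜ[k] 1 + 1 ⊗ₜ[k] w ∧
      ∀ c : C, c * ι w = ι w * c := by
  obtain ⟨n, hn⟩ := hU
  -- extension of functionals
  obtain ⟨r, hr⟩ := LinearMap.exists_leftInverse_of_injective
    ((AlgHomClass.toAlgHom ι).toLinearMap) (LinearMap.ker_eq_bot.2 hinj)
  have hr' : ∀ a, r (ι a) = a := fun a => LinearMap.congr_fun hr a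
  have hcomul : ∀ w : A, comul (R := k) w = w ⊗ₜ[k] 1 + 1 ⊗ₜ[k] w →
      comul (R := k) (ι w) = ι w ⊗ₜ[k] 1 + 1 ⊗ₜ[k] ι w := by
    intro w hw
    rw [h85_comul, hw, map_add, TensorProduct.map_tmul, TensorProduct.map_tmul]
    change ι w ⊗ₜ[k] ι 1 + ι 1 ⊗ₜ[k] ι w = _
    rw [map_one]
  have hprimε : ∀ w : A, comul (R := k) w = w ⊗ₜ[k] 1 + 1 ⊗ₜ[k] w → counit (R := k) w = 0 := by
    intro w hw
    have h := Coalgebra.rTensor_counit_comul (R := k) w
    rw [hw, map_add, LinearMap.rTensor_tmul, LinearMap.rTensor_tmul, Bialgebra.counit_one] at h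
    have h2 := congrArg (TensorProduct.lid k A) h
    rw [map_add, TensorProduct.lid_tmul, TensorProduct.lid_tmul, one_smul, add_eq_right] at h2
    have h3 := congrArg (counit (R := k)) h2
    rw [map_smul, Bialgebra.counit_one, map_zero, smul_eq_mul, mul_one] at h3
    exact h3
  obtain ⟨w₀, -, hw₀, hw₀p⟩ := exists_prim hN (LinearMap.ker (counit (R := k) (A := A)))
    (fun v hv => hv) (fun f _ v _ => counit_TT f v) a₀ ha₀ ha₀'
  have key : ∀ (m : ℕ) (w : A), w ≠ 0 → comul (R := k) w = w ⊗ₜ[k] 1 + 1 ⊗ₜ[k] w →
      (∀ l : List C, l.length = m → (∀ c ∈ l, counit (R := k) c = 0) →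
        adl k l.prod (ι w) = 0) →
      ∃ w : A, w ≠ 0 ∧ comul (R := k) w = w ⊗ₜ[k] 1 + 1 ⊗ₜ[k] w ∧
        ∀ c : C, c * ι w = ι w * c := by
    intro m
    induction m with
    | zero =>
      intro w hw hwp h
      have h1 := h [] rfl (by simp)
      rw [List.prod_nil, adl_one_left] at h1
      exact absurd (hinj (h1.trans (map_zero ι).symm)) hw
    | succ m ih =>
      intro w hw hwp h
      by_cases hc : ∀ c : C, counit (R := k) c = 0 → adl k c (ι w) = 0
      · refine ⟨w, hw, hwp, comm_of_adl (k := k) fun c => ?_⟩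
        have h1 := hc (c - algebraMap k C (counit (R := k) c)) (by
          rw [map_sub, Bialgebra.counit_algebraMap]
          exact sub_self _)
        have h2 : c = (c - algebraMap k C (counit (R := k) c)) +
            counit (R := k) c • (1 : C) := by
          rw [Algebra.algebraMap_eq_smul_one, sub_add_cancel]
        conv_lhs => rw [h2]
        rw [adl_add_left, h1, zero_add, adl_smul_left, adl_one_left]
      · push Not at hc
        obtain ⟨c₁, hc₁, hc₁w⟩ := hc
        let W : Submodule k A :=
          { carrier := {a | ∃ c : C, counit (R := k) c = 0 ∧ ι a = adl k c (ι w)}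
            add_mem' := by
              rintro a b ⟨c, hc, ha⟩ ⟨d, hd, hb⟩
              exact ⟨c + d, by rw [map_add, hc, hd, add_zero], by
                rw [map_add, ha, hb, adl_add_left]⟩
            zero_mem' := ⟨0, map_zero _, by
              rw [map_zero]
              exact (LinearMap.map_zero₂ (adlL (k := k)) (ι w)).symm⟩
            smul_mem' := by
              rintro r a ⟨c, hc, ha⟩
              exact ⟨r • c, by rw [map_smul, hc, smul_zero], by
                rw [map_smul, ha, adl_smul_left]⟩ }
        obtain ⟨a₁, ha₁⟩ := hadl c₁ w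
        have hW : ∀ v ∈ W, counit (R := k) v = 0 := by
          rintro v ⟨c, hc, hv⟩
          rw [← h85_counit ι v, hv, counit_adl, hc, zero_mul]
        have hT : ∀ f : WithConv (A →ₗ[k] k), f 1 = 0 → ∀ v ∈ W, TT f v ∈ W := by
          rintro f hf v ⟨c, hc, hv⟩
          set f' : C →ₗ[k] k := f.ofConv ∘ₗ r with hf'
          have hf1 : f' 1 = 0 := by
            rw [hf', LinearMap.comp_apply, ← map_one ι, hr']
            exact hf
          refine ⟨UU f' 1 c, counit_UU_one f' hf1 c, ?_⟩
          rw [← LamL_adl_prim f' c (ι w) (hcomul w hwp), ← hv, LamL_map, TT_apply, map_sub]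
          have h5 : f' ∘ₗ (AlgHomClass.toAlgHom ι).toLinearMap = f.ofConv := by
            refine LinearMap.ext fun x => ?_
            change f.ofConv (r (ι x)) = _
            rw [hr']
          rw [h5]
          congr 1
          rw [AlgHomClass.commutes]
          congr 1
          change f.ofConv v = f.ofConv (r (ι v))
          rw [hr']
        obtain ⟨w', ⟨c₀, hc₀, hw'⟩, hw'0, hw'p⟩ := exists_prim hN W hW hT a₁ ⟨c₁, hc₁, ha₁⟩ (by
          rintro rfl
          rw [map_zero] at ha₁
          exact hc₁w ha₁.symm)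
        refine ih w' hw'0 hw'p fun l hl hl1 => ?_
        rw [hw', ← adl_mul_left]
        have h6 := h (l ++ [c₀]) (by simp [hl]) (by
          intro c hc
          rcases List.mem_append.1 hc with hc | hc
          · exact hl1 c hc
          · rw [List.mem_singleton] at hc
            rw [hc]
            exact hc₀)
        rwa [List.prod_append, List.prod_singleton] at h6
  exact key n w₀ hw₀ hw₀p fun l hl hl1 => hn l hl hl1 w₀ (hprimε w₀ hw₀p)

end Pool.Agent.H42.HA
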