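import Pool.Agent.H42.HA.Adj

/-!
# Hopf algebras with a local dual: primitive elements
-/

open CategoryTheory TensorProduct Coalgebra HopfAlgebra WithConv
open Pool.Agent.H26.FG Pool.Agent.H26.FG.LSaux

universe u

namespace Pool.Agent.H42.HA

section Tensor

variable {k : Type u} [Field k] {A : Type u} [Ring A] [HopfAlgebra k A]

/-- A tensor is determined by its contractions with functionals. -/
lemma tensor_eq_sum {ι : Type*} [Fintype ι] (b : Module.Basis ι k A) (t : A ⊗[k] A) :
    t = ∑ i, b i ⊗ₜ[k] LamL (b.coord i) t := by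
  induction t using TensorProduct.induction_on with
  | zero => simp
  | tmul x y =>
    simp only [LamL_tmul, TensorProduct.tmul_smul]
    simp only [TensorProduct.smul_tmul', ← TensorProduct.sum_tmul]
    congr 1
    conv_lhs => rw [← b.sum_repr x]
    rfl
  | add s t hs ht =>
    conv_lhs => rw [hs, ht]
    rw [← Finset.sum_add_distrib]
    refine Finset.sum_congr rfl fun i _ => ?_
    rw [map_add, TensorProduct.tmul_add]

lemma tensor_ext [Module.Finite k A] {s t : A ⊗[k] A} (h : ∀ f : A →ₗ[k] k, LamL f s = LamL f t) :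
    s = t := by
  have b := Module.finBasis k A
  rw [tensor_eq_sum b s, tensor_eq_sum b t]
  simp only [h]

end Tensor

section TT

variable {k : Type u} [Field k] {A : Type u} [Ring A] [HopfAlgebra k A]

/-- `T f x = (f ⊗ id) Δ x - f(x) 1`. -/
noncomputable def TT (f : WithConv (A →ₗ[k] k)) : A →ₗ[k] A :=
  LamL f.ofConv ∘ₗ comul - (Algebra.linearMap k A) ∘ₗ f.ofConv

lemma TT_apply (f : WithConv (A →ₗ[k] k)) (x : A) :
    TT f x = LamL f.ofConv (comul (R := k) x) - algebraMap k A (f x) := rfl

lemma LamL_comul_sw (f : A →ₗ[k] k) (x : A) :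
    LamL f (comul (R := k) x) = sw k (fun u v => f u • v) x := by
  rw [sw_comul, map_sw]
  simp only [LamL_tmul]

lemma LamL_LamL (f g : WithConv (A →ₗ[k] k)) (x : A) :
    LamL f.ofConv (comul (R := k) (LamL g.ofConv (comul (R := k) x))) =
      LamL (g * f).ofConv (comul (R := k) x) := by
  have h1 : ∀ x, LamL f.ofConv (comul (R := k) x) = sw k (fun u v => f.ofConv u • v) x :=
    LamL_comul_sw f.ofConv
  rw [LamL_comul_sw g.ofConv x, map_sw, map_sw, LamL_comul_sw]
  have h2 : ∀ u v : A, LamL f.ofConv (comul (R := k) (g.ofConv u • v)) =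
      sw k (fun a b => g.ofConv u • f.ofConv a • b) v := by
    intro u v
    rw [map_smul, map_smul, h1, smul_sw]
  simp only [h2]
  have hT : Tri k (fun u a b : A => g.ofConv u • f.ofConv a • b) := by
    constructor <;> intros <;>
      simp only [map_add, map_smul, smul_eq_mul, smul_smul, smul_add, mul_add,
        add_smul, mul_comm, mul_left_comm]
  rw [← coas hT]
  congr 1
  funext u v
  have h3 : (g * f).ofConv u = sw k (fun a b => g.ofConv a * f.ofConv b) u :=
    (ℛ k u).convMul_apply g f
  rw [h3]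
  have h4 := map_sw (k := k) (LinearMap.toSpanSingleton k A v)
    (fun a b => g.ofConv a * f.ofConv b) u
  simp only [LinearMap.toSpanSingleton_apply, mul_smul] at h4
  exact h4.symm

lemma TT_TT (f g : WithConv (A →ₗ[k] k)) (x : A) : TT f (TT g x) = TT (g * f) x := by
  rw [TT_apply g, map_sub, TT_apply f, LamL_LamL, TT_apply, TT_apply]
  have h1 : f (LamL g.ofConv (comul (R := k) x)) = (g * f) x := by
    rw [LamL_comul_sw]
    change f.ofConv _ = _
    rw [map_sw]
    have h3 : (g * f) x = sw k (fun a b => g.ofConv a * f.ofConv b) x :=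
      (ℛ k x).convMul_apply g f
    rw [h3]
    congr 1
    funext a b
    rw [map_smul, smul_eq_mul]
  have h2 : LamL f.ofConv (comul (R := k) (algebraMap k A (g x))) -
      algebraMap k A (f (algebraMap k A (g x))) = 0 := by
    rw [Algebra.algebraMap_eq_smul_one, map_smul, map_smul, Bialgebra.comul_one,
      Algebra.TensorProduct.one_def, LamL_tmul]
    change _ - algebraMap k A (f.ofConv _) = 0
    rw [map_smul, smul_eq_mul, Algebra.algebraMap_eq_smul_one, ← smul_smul, sub_self]
  rw [h1, h2, sub_zero]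

lemma counit_TT (f : WithConv (A →ₗ[k] k)) (x : A) : counit (R := k) (TT f x) = 0 := by
  rw [TT_apply, map_sub, Bialgebra.counit_algebraMap, LamL_comul_sw, map_sw]
  have h := sw_eps_r (k := k) f.ofConv x
  rw [sub_eq_zero, show f x = f.ofConv x from rfl, ← h]
  congr 1
  funext u v
  rw [map_smul, smul_eq_mul, smul_eq_mul, mul_comm]

lemma TT_one (x : A) : TT (1 : WithConv (A →ₗ[k] k)) x = x - algebraMap k A (counit (R := k) x) := by
  rw [TT_apply]
  congr 1
  rw [LamL_comul_sw]
  exact sw_eps_l (k := k) LinearMap.id x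

/-- Products of `n` functionals which vanish on `1` are zero. -/
def NilDual (k : Type u) [Field k] (A : Type u) [Ring A] [HopfAlgebra k A] : Prop :=
  ∃ n : ℕ, ∀ l : List (WithConv (A →ₗ[k] k)), l.length = n → (∀ f ∈ l, f 1 = 0) → l.prod = 0

/-- The primitive elements: the common kernel of the operators `T f` on `ker ε`. -/
lemma prim_of_TT [Module.Finite k A] {v : A} (hε : counit (R := k) v = 0)
    (h : ∀ f : WithConv (A →ₗ[k] k), f 1 = 0 → TT f v = 0) :
    comul (R := k) v = v ⊗ₜ[k] 1 + 1 ⊗ₜ[k] v := by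
  refine tensor_ext fun f => ?_
  set g : WithConv (A →ₗ[k] k) := toConv f - f 1 • 1 with hg
  have hg1 : g 1 = 0 := by
    change f 1 - f 1 * (algebraMap k k (counit (R := k) (1 : A))) = 0
    rw [Bialgebra.counit_one]
    simp
  have h1 := h g hg1
  have h2 : TT g v = TT (toConv f) v - f 1 • TT (1 : WithConv (A →ₗ[k] k)) v := by
    have h3 : ∀ (a b : WithConv (A →ₗ[k] k)) (r : k), TT (a - r • b) v = TT a v - r • TT b v := by
      intro a b r
      rw [TT_apply, TT_apply, TT_apply, LamL_comul_sw, LamL_comul_sw, LamL_comul_sw]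
      change sw k (fun u w => (a.ofConv u - r * b.ofConv u) • w) v -
        algebraMap k A (a.ofConv v - r * b.ofConv v) = _
      have h4 : sw k (fun u w => (a.ofConv u - r * b.ofConv u) • w) v =
          sw k (fun u w => a.ofConv u • w) v - r • sw k (fun u w => b.ofConv u • w) v := by
        unfold sw
        rw [Finset.smul_sum, ← Finset.sum_sub_distrib]
        refine Finset.sum_congr rfl fun i _ => ?_
        dsimp only
        rw [sub_smul, mul_smul]
      rw [h4, map_sub, map_mul, smul_sub, Algebra.smul_def r (algebraMap k A (b v))]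
      change _ = _ - algebraMap k A (a.ofConv v) - (_ - _ * algebraMap k A (b.ofConv v))
      abel
    exact h3 _ _ _
  rw [h2, TT_one, hε, map_zero, sub_zero, TT_apply, sub_sub, sub_eq_zero] at h1
  change LamL f (comul (R := k) v) = _ at h1
  rw [h1, map_add, LamL_tmul, LamL_tmul, Algebra.algebraMap_eq_smul_one]

/-- A nonzero subspace of `ker ε` stable under all `T f`, `f(1) = 0`, contains a primitive
element. -/
theorem exists_prim [Module.Finite k A] (hN : NilDual k A) (V : Submodule k A)
    (hV : ∀ v ∈ V, counit (R := k) v = 0)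
    (hT : ∀ f : WithConv (A →ₗ[k] k), f 1 = 0 → ∀ v ∈ V, TT f v ∈ V) (v : A) (hv : v ∈ V)
    (hv0 : v ≠ 0) :
    ∃ w ∈ V, w ≠ 0 ∧ comul (R := k) w = w ⊗ₜ[k] 1 + 1 ⊗ₜ[k] w := by
  obtain ⟨n, hn⟩ := hN
  have key : ∀ (m : ℕ) (v : A), v ∈ V → v ≠ 0 →
      (∀ l : List (WithConv (A →ₗ[k] k)), l.length = m → (∀ f ∈ l, f 1 = 0) →
        TT l.prod v = 0) →
      ∃ w ∈ V, w ≠ 0 ∧ comul (R := k) w = w ⊗ₜ[k] 1 + 1 ⊗ₜ[k] w := by
    intro m
    induction m with
    | zero =>
      intro v hv hv0 h
      have h1 := h [] rfl (by simp)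
      rw [List.prod_nil, TT_one, hV v hv, map_zero, sub_zero] at h1
      exact absurd h1 hv0
    | succ m ih =>
      intro v hv hv0 h
      by_cases hc : ∀ f : WithConv (A →ₗ[k] k), f 1 = 0 → TT f v = 0
      · exact ⟨v, hv, hv0, prim_of_TT (hV v hv) hc⟩
      · push Not at hc
        obtain ⟨f, hf, hfv⟩ := hc
        refine ih (TT f v) (hT f hf v hv) hfv fun l hl hl1 => ?_
        rw [TT_TT, ← List.prod_cons]
        refine h (f :: l) (by simp [hl]) ?_
        intro g hg
        rcases List.mem_cons.1 hg with rfl | hg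
        · exact hf
        · exact hl1 g hg
  refine key n v hv hv0 fun l hl hl1 => ?_
  rw [hn l hl hl1]
  have : TT (0 : WithConv (A →ₗ[k] k)) v = 0 := by
    rw [TT_apply, LamL_comul_sw]
    change sw k (fun u w => (0 : k) • w) v - algebraMap k A 0 = 0
    rw [map_zero, sub_zero]
    unfold sw
    simp
  exact this

end TT

section Local

variable {k : Type u} [Field k] {A : Type u} [Ring A] [HopfAlgebra k A] [Module.Finite k A]

omit [Module.Finite k A] in
/-- Evaluation at `1` is multiplicative. -/
lemma conv_mul_one (f g : WithConv (A →ₗ[k] k)) : (f * g) 1 = f 1 * g 1 := by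
  rw [LinearMap.convMul_apply, Bialgebra.comul_one, Algebra.TensorProduct.one_def,
    TensorProduct.map_tmul, LinearMap.mul'_apply]

/-- If the dual algebra is local, then the functionals vanishing on `1` are nilpotent. -/
theorem nilDual_of_local [IsLocalRing (WithConv (A →ₗ[k] k))] : NilDual k A := by
  have hfin : Module.Finite k (WithConv (A →ₗ[k] k)) :=
    Module.Finite.equiv (WithConv.linearEquiv k (A →ₗ[k] k)).symm
  have hart : IsArtinianRing (WithConv (A →ₗ[k] k)) := IsArtinianRing.of_finite k _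
  obtain ⟨n, hn⟩ := IsArtinianRing.isNilpotent_jacobson_bot (R := WithConv (A →ₗ[k] k))
  refine ⟨n, fun l hl hl1 => ?_⟩
  have hmem : ∀ f : WithConv (A →ₗ[k] k), f 1 = 0 → f ∈ Ideal.jacobson (⊥ : Ideal _) := by
    intro f hf
    rw [Ideal.mem_jacobson_iff]
    intro y
    have h1 : ¬ IsUnit (y * f) := by
      rintro ⟨u, hu⟩
      have h2 : (u * (↑u⁻¹ : WithConv (A →ₗ[k] k)) : WithConv (A →ₗ[k] k)) 1 = 0 := by
        rw [conv_mul_one, hu, conv_mul_one, hf, mul_zero, zero_mul]
      rw [Units.mul_inv] at h2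
      rw [LinearMap.convOne_apply, Bialgebra.counit_one, map_one] at h2
      exact one_ne_zero h2
    have h3 : IsUnit (1 + y * f) := by
      have h4 := IsLocalRing.isUnit_or_isUnit_of_add_one (a := 1 + y * f) (b := -(y * f)) (by abel)
      rcases h4 with h4 | h4
      · exact h4
      · exact absurd ((IsUnit.neg_iff _).1 h4) h1
    obtain ⟨u, hu⟩ := h3
    refine ⟨↑u⁻¹, ?_⟩
    rw [Ideal.mem_bot, mul_assoc, sub_eq_zero]
    have h5 : (↑u⁻¹ : WithConv (A →ₗ[k] k)) * (1 + y * f) = 1 := by rw [← hu, Units.inv_mul]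
    rw [mul_add, mul_one] at h5
    rw [add_comm]
    exact h5
  have hprod : ∀ (m : ℕ) (l : List (WithConv (A →ₗ[k] k))), l.length = m →
      (∀ f ∈ l, f 1 = 0) → l.prod ∈ (Ideal.jacobson (⊥ : Ideal (WithConv (A →ₗ[k] k)))) ^ m := by
    intro m
    induction m with
    | zero =>
      intro l _ _
      rw [Submodule.pow_zero, Ideal.one_eq_top]
      exact Submodule.mem_top
    | succ m ih =>
      intro l hl hl1
      rcases List.eq_nil_or_concat' l with rfl | ⟨l', f, rfl⟩
      · simp at hl
      · rw [List.prod_append, List.prod_singleton, Submodule.pow_succ]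
        refine Ideal.mul_mem_mul (ih l' (by simpa using hl) ?_) (hmem f (hl1 f (by simp)))
        intro g hg
        exact hl1 g (by simp [hg])
  have h := hprod n l hl hl1
  rw [hn] at h
  exact h

end Local

end Pool.Agent.H42.HA
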