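import Pool.Agent.H42.HA.NZB

/-!
# A finite-dimensional Hopf algebra is projective over its Hopf subalgebras
-/

open CategoryTheory TensorProduct Coalgebra HopfAlgebra WithConv
open Pool.Agent.H26.FG Pool.Agent.H26.FG.LSaux

universe u v w

namespace Pool.Agent.H42.HA

/-- Right integrals exist. -/
theorem exists_right_integral (k : Type u) [Field k] (D : Type u) [Ring D] [HopfAlgebra k D]
    [Module.Finite k D] : ∃ Γ : D, Γ ≠ 0 ∧ ∀ d : D, Γ * d = counit (R := k) d • Γ := by
  obtain ⟨t, -, ht, -, -⟩ := larson_sweedler k D
  obtain ⟨e, he⟩ := KT_repL t ht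
  have h1 : ∀ a, t (e (counit (R := k)) * a) = counit (R := k) a := fun a => he _ a
  refine ⟨e (counit (R := k)), ?_, fun d => ?_⟩
  · intro h0
    have h2 := h1 1
    rw [h0, zero_mul, map_zero, Bialgebra.counit_one] at h2
    exact zero_ne_one h2
  · rw [← sub_eq_zero]
    apply ht
    intro y
    rw [sub_mul, map_sub, smul_mul_assoc, map_smul, mul_assoc, h1, h1, Bialgebra.counit_mul,
      smul_eq_mul, sub_self]

variable {k : Type u} [Field k] {D C : Type u} [Ring D] [HopfAlgebra k D] [Module.Finite k D]
  [Ring C] [HopfAlgebra k C] [Module.Finite k C]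

/-- The antipode of a right integral is a left integral. -/
lemma antipode_integral {Γ : D} (hΓ : ∀ d : D, Γ * d = counit (R := k) d • Γ) (d : D) :
    d * antipode k Γ = counit (R := k) d • antipode k Γ := by
  obtain ⟨-, -, -, -, hS⟩ := larson_sweedler k D
  obtain ⟨d', rfl⟩ := hS.2 d
  rw [← HopfAlgebra.antipode_mul_antidistrib, hΓ, map_smul, HopfAlgebra.counit_antipode]

/-- The antipode of a left integral is a right integral. -/
lemma antipode_integral' {Λ : D} (hΛ : ∀ d : D, d * Λ = counit (R := k) d • Λ) (d : D) :
    antipode k Λ * d = counit (R := k) d • antipode k Λ := by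
  obtain ⟨-, -, -, -, hS⟩ := larson_sweedler k D
  obtain ⟨d', rfl⟩ := hS.2 d
  rw [← HopfAlgebra.antipode_mul_antidistrib, hΛ, map_smul, HopfAlgebra.counit_antipode]

/-- A functional on `C` with `g (S(Λ) c) = ε(c)`. -/
theorem exists_functional (j : D →ₐc[k] C) (hj : Function.Injective j) {Γ : D}
    (hΓ : ∀ d : D, Γ * d = counit (R := k) d • Γ) (hΓ0 : Γ ≠ 0) :
    ∃ g : C →ₗ[k] k, ∀ c, g (j (antipode k (antipode k Γ)) * c) = counit (R := k) c := by
  obtain ⟨ΓC, hΓC0, hΓC⟩ := exists_right_integral k C
  obtain ⟨-, -, -, -, hS⟩ := larson_sweedler k C
  obtain ⟨x, hx⟩ := inv_eq_range j hj hΓ hΓ0 (antipode k ΓC) (fun d => by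
    rw [antipode_integral hΓC, h85_counit])
  have h1 : antipode k (antipode k ΓC) ≠ 0 := by
    intro h
    have h2 := hS.1 (h.trans (map_zero _).symm)
    exact hΓC0 (hS.1 (h2.trans (map_zero _).symm))
  obtain ⟨γ, hγ⟩ : ∃ γ : C →ₗ[k] k, γ (antipode k (antipode k ΓC)) = 1 := by
    obtain ⟨f, hf⟩ : ∃ f : C →ₗ[k] k, f (antipode k (antipode k ΓC)) ≠ 0 := by
      by_contra h
      push Not at h
      exact h1 ((Module.forall_dual_apply_eq_zero_iff k _).1 h)
    exact ⟨(f (antipode k (antipode k ΓC)))⁻¹ • f, by
      rw [LinearMap.smul_apply, smul_eq_mul, inv_mul_cancel₀ hf]⟩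
  refine ⟨γ ∘ₗ LinearMap.mulLeft k (antipode k x), fun c => ?_⟩
  rw [LinearMap.comp_apply, LinearMap.mulLeft_apply, map_antipode j, ← mul_assoc,
    ← HopfAlgebra.antipode_mul_antidistrib, ← hx,
    antipode_integral' (antipode_integral hΓC), map_smul, hγ, smul_eq_mul, mul_one]

/-- A left `D`-linear map `C → D` compatible with the counits. -/
theorem exists_total (j : D →ₐc[k] C) (hj : Function.Injective j) :
    ∃ f : C →ₗ[k] D, (∀ d c, f (j d * c) = d * f c) ∧
      ∀ c, counit (R := k) (f c) = counit (R := k) c := by
  obtain ⟨Γ, hΓ0, hΓ⟩ := exists_right_integral k D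
  obtain ⟨g, hg⟩ := exists_functional j hj hΓ hΓ0
  set Λ := antipode k Γ with hΛ
  have hΛl : ∀ d : D, d * Λ = counit (R := k) d • Λ := antipode_integral hΓ
  refine ⟨{ toFun := fun c => sw k (fun x y => g (j (antipode k y) * c) • x) Λ
            map_add' := fun c c' => by
              unfold sw
              rw [← Finset.sum_add_distrib]
              exact Finset.sum_congr rfl fun i _ => by
                dsimp only
                rw [mul_add, map_add, add_smul]
            map_smul' := fun r c => by
              unfold sw
              rw [RingHom.id_apply, Finset.smul_sum]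
              exact Finset.sum_congr rfl fun i _ => by
                dsimp only
                rw [mul_smul_comm, map_smul, smul_eq_mul, mul_smul] }, ?_, ?_⟩
  · intro d c
    change sw k (fun x y => g (j (antipode k y) * (j d * c)) • x) Λ =
      d * sw k (fun x y => g (j (antipode k y) * c) • x) Λ
    -- the double sum
    have hB : ∀ b : D, Bi k (fun x y : D => g (j (antipode k y * b) * c) • x) := by
      intro b
      constructor
      · intro x x' y; rw [smul_add]
      · intro r x y; rw [smul_comm]
      · intro x y y'; rw [map_add, add_mul, map_add, add_mul, map_add, add_smul]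
      · intro r x y
        rw [map_smul, smul_mul_assoc, map_smul, smul_mul_assoc, map_smul, smul_eq_mul, mul_smul]
    have h1 : sw k (fun a b => sw k (fun x y => g (j (antipode k y * b) * c) • x) (a * Λ)) d =
        sw k (fun x y => g (j (antipode k y) * (j d * c)) • x) Λ := by
      have h2 : ∀ a b : D, sw k (fun x y => g (j (antipode k y * b) * c) • x) (a * Λ) =
          counit (R := k) a • sw k (fun x y => g (j (antipode k y * b) * c) • x) Λ := by
        intro a b
        rw [hΛl, (hB b).sw_lift, (hB b).sw_lift, map_smul, map_smul]
      simp only [h2]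
      have h3 := sw_eps_l (k := k)
        ({ toFun := fun b => sw k (fun x y => g (j (antipode k y * b) * c) • x) Λ
           map_add' := fun b b' => by
             unfold sw
             rw [← Finset.sum_add_distrib]
             exact Finset.sum_congr rfl fun i _ => by
               dsimp only
               rw [mul_add, map_add, add_mul, map_add, add_smul]
           map_smul' := fun r b => by
             unfold sw
             rw [RingHom.id_apply, Finset.smul_sum]
             exact Finset.sum_congr rfl fun i _ => by
               dsimp only
               rw [mul_smul_comm, map_smul, smul_mul_assoc, map_smul, smul_eq_mul,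
                 mul_smul] } : D →ₗ[k] D) d
      simp only [LinearMap.coe_mk, AddHom.coe_mk] at h3
      rw [h3]
      congr 1
      funext x y
      rw [map_mul j, mul_assoc]
    have h4 : sw k (fun a b => sw k (fun x y => g (j (antipode k y * b) * c) • x) (a * Λ)) d =
        d * sw k (fun x y => g (j (antipode k y) * c) • x) Λ := by
      have h5 : ∀ a b : D, sw k (fun x y => g (j (antipode k y * b) * c) • x) (a * Λ) =
          sw k (fun p q => sw k (fun x y =>
            g (j (antipode k y * (antipode k q * b)) * c) • (p * x)) Λ) a := by
        intro a b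
        rw [sw_mul_eq (hB b)]
        congr 1
        funext p q
        congr 1
        funext x y
        rw [HopfAlgebra.antipode_mul_antidistrib, mul_assoc]
      simp only [h5]
      have hT : Tri k (fun p q b : D => sw k (fun x y =>
            g (j (antipode k y * (antipode k q * b)) * c) • (p * x)) Λ) := by
        constructor
        · intro p p' q b
          unfold sw
          rw [← Finset.sum_add_distrib]
          exact Finset.sum_congr rfl fun i _ => by
            dsimp only
            rw [add_mul, smul_add]
        · intro r p q b
          unfold sw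
          rw [Finset.smul_sum]
          exact Finset.sum_congr rfl fun i _ => by
            dsimp only
            rw [smul_mul_assoc, smul_comm]
        · intro p q q' b
          unfold sw
          rw [← Finset.sum_add_distrib]
          exact Finset.sum_congr rfl fun i _ => by
            dsimp only
            rw [map_add, add_mul, mul_add, map_add, add_mul, map_add, add_smul]
        · intro r p q b
          unfold sw
          rw [Finset.smul_sum]
          exact Finset.sum_congr rfl fun i _ => by
            dsimp only
            rw [map_smul, smul_mul_assoc, mul_smul_comm, map_smul, smul_mul_assoc, map_smul,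
              smul_eq_mul, mul_smul]
        · intro p q b b'
          unfold sw
          rw [← Finset.sum_add_distrib]
          exact Finset.sum_congr rfl fun i _ => by
            dsimp only
            rw [mul_add, mul_add, map_add, add_mul, map_add, add_smul]
        · intro r p q b
          unfold sw
          rw [Finset.smul_sum]
          exact Finset.sum_congr rfl fun i _ => by
            dsimp only
            rw [mul_smul_comm, mul_smul_comm, map_smul, smul_mul_assoc, map_smul,
              smul_eq_mul, mul_smul]
      rw [coas hT]
      have h6 : ∀ p z : D, sw k (fun q b => sw k (fun x y =>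
            g (j (antipode k y * (antipode k q * b)) * c) • (p * x)) Λ) z =
          counit (R := k) z • (LinearMap.mulRight k
            (sw k (fun x y => g (j (antipode k y) * c) • x) Λ)) p := by
        intro p z
        have h7 := map_sw (k := k)
          ({ toFun := fun b => sw k (fun x y => g (j (antipode k y * b) * c) • (p * x)) Λ
             map_add' := fun b b' => by
               unfold sw
               rw [← Finset.sum_add_distrib]
               exact Finset.sum_congr rfl fun i _ => by
                 dsimp only
                 rw [mul_add, map_add, add_mul, map_add, add_smul]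
             map_smul' := fun r b => by
               unfold sw
               rw [RingHom.id_apply, Finset.smul_sum]
               exact Finset.sum_congr rfl fun i _ => by
                 dsimp only
                 rw [mul_smul_comm, map_smul, smul_mul_assoc, map_smul, smul_eq_mul,
                   mul_smul] } : D →ₗ[k] D) (fun q b => antipode k q * b) z
        simp only [LinearMap.coe_mk, AddHom.coe_mk] at h7
        rw [← h7, sw_S_mul]
        have h8 : sw k (fun x y => g (j (antipode k y * (counit (R := k) z • (1 : D))) * c) •
            (p * x)) Λ = counit (R := k) z •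
            (p * sw k (fun x y => g (j (antipode k y) * c) • x) Λ) := by
          rw [mul_sw, smul_sw]
          congr 1
          funext x y
          rw [mul_smul_comm, mul_one, map_smul, smul_mul_assoc, map_smul, smul_eq_mul, mul_smul,
            mul_smul_comm]
        exact h8
      simp only [h6]
      exact sw_eps_r (k := k) (LinearMap.mulRight k
        (sw k (fun x y => g (j (antipode k y) * c) • x) Λ)) d
    rw [← h1, h4]
  · intro c
    change counit (R := k) (sw k (fun x y => g (j (antipode k y) * c) • x) Λ) = _
    rw [map_sw]
    have h1 : ∀ x y : D, counit (R := k) (g (j (antipode k y) * c) • x) =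
        counit (R := k) x • (g ∘ₗ LinearMap.mulRight k c ∘ₗ (jal j).toLinearMap ∘ₗ
          antipode k) y := by
      intro x y
      rw [map_smul, smul_eq_mul, smul_eq_mul, mul_comm]
      rfl
    simp only [h1]
    rw [sw_eps_l]
    exact hg c

/-- `C` is a finitely generated projective left module over each Hopf subalgebra. -/
theorem exists_dual_basis_sub (j : D →ₐc[k] C) (hj : Function.Injective j) :
    ∃ (n : ℕ) (w : Fin n → C) (φ : Fin n → C →ₗ[k] D),
      (∀ i a c, φ i (j a * c) = a * φ i c) ∧ ∀ c, ∑ i, j (φ i c) * w i = c := by
  obtain ⟨f, hf, hfε⟩ := exists_total j hj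
  let b := Module.finBasis k C
  let σ : D →ₐ[k] Module.End k C := (Algebra.lmul k C).comp (jal j)
  -- the map `c ↦ ∑ f(c₁) ⊗ c₂`
  let s : C →ₗ[k] D ⊗[k] C := (TensorProduct.map f LinearMap.id) ∘ₗ comul
  have hs : ∀ c, s c = sw k (fun x y => f x ⊗ₜ[k] y) c := by
    intro c
    change (TensorProduct.map f LinearMap.id) (comul (R := k) c) = _
    rw [sw_comul, map_sw]
    rfl
  have hsd : ∀ d c, s (j d * c) = tens (Algebra.lmul k D) σ d (s c) := by
    intro d c
    have h1 : comul (R := k) (j d * c) = ∑ ij ∈ (ℛ k d).index ×ˢ (ℛ k c).index,
        (j ((ℛ k d).left ij.1) * (ℛ k c).left ij.2) ⊗ₜ[k]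
          (j ((ℛ k d).right ij.1) * (ℛ k c).right ij.2) := by
      rw [Bialgebra.comul_mul, h85_comul]
      conv_lhs => rw [← (ℛ k d).eq, ← (ℛ k c).eq]
      rw [map_sum, Finset.sum_mul_sum, Finset.sum_product]
      simp only [TensorProduct.map_tmul, Algebra.TensorProduct.tmul_mul_tmul]
      rfl
    change (TensorProduct.map f LinearMap.id) (comul (R := k) (j d * c)) = _
    rw [h1, map_sum, Finset.sum_product, hs, tens_apply]
    unfold sw
    rw [LinearMap.sum_apply]
    refine Finset.sum_congr rfl fun i _ => ?_
    rw [map_sum]
    refine Finset.sum_congr rfl fun l _ => ?_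
    dsimp only
    rw [TensorProduct.map_tmul, TensorProduct.map_tmul, hf]
    rfl
  let s' : C →ₗ[k] D ⊗[k] C := Theta σ ∘ₗ s
  have hs' : ∀ d c, s' (j d * c) =
      TensorProduct.map (Algebra.lmul k D d) LinearMap.id (s' c) := by
    intro d c
    change Theta σ (s (j d * c)) = _
    rw [hsd]
    exact LinearMap.congr_fun (Theta_equiv σ d) (s c)
  let m : D ⊗[k] C →ₗ[k] C := TensorProduct.lift
    ((LinearMap.mul k C) ∘ₗ (jal j).toLinearMap)
  have hm : ∀ t : D ⊗[k] C, m t =
      TensorProduct.lid k C (TensorProduct.map (counit (R := k)) LinearMap.id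
        (Phi σ.toLinearMap t)) := by
    intro t
    induction t using TensorProduct.induction_on with
    | zero => simp
    | add x y hx hy => simp only [map_add, hx, hy]
    | tmul d c =>
      rw [Phi_tmul, map_sw]
      have h1 := map_sw (k := k) (TensorProduct.lid k C).toLinearMap
        (fun x y => TensorProduct.map (counit (R := k)) LinearMap.id
          (x ⊗ₜ[k] σ.toLinearMap y c)) d
      refine Eq.trans ?_ h1.symm
      have h2 := sw_eps_l (k := k) (σ.toLinearMap.flip c) d
      refine Eq.trans ?_ (h2.symm.trans ?_)
      · rfl
      · rfl
  have hms : ∀ c, m (s' c) = c := by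
    intro c
    rw [hm]
    change TensorProduct.lid k C (TensorProduct.map (counit (R := k)) LinearMap.id
        (Phi σ.toLinearMap (Theta σ (s c)))) = c
    rw [Phi_Theta, hs, map_sw]
    have h1 := map_sw (k := k) (TensorProduct.lid k C).toLinearMap
        (fun x y : C => TensorProduct.map (counit (R := k)) LinearMap.id (f x ⊗ₜ[k] y)) c
    refine h1.trans ?_
    refine Eq.trans ?_ (sw_eps_l (k := k) LinearMap.id c)
    congr 1
    funext x y
    change TensorProduct.lid k C (counit (R := k) (f x) ⊗ₜ[k] y) = _
    rw [TensorProduct.lid_tmul, hfε]
    rfl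
  let ev : Fin (Module.finrank k C) → D ⊗[k] C →ₗ[k] D := fun i =>
    (TensorProduct.rid k D).toLinearMap ∘ₗ TensorProduct.map LinearMap.id (b.coord i)
  have hev : ∀ i (x : D) (y : C), ev i (x ⊗ₜ y) = b.coord i y • x := by
    intro i x y
    change TensorProduct.rid k D (x ⊗ₜ (b.coord i y)) = _
    rw [TensorProduct.rid_tmul]
  refine ⟨Module.finrank k C, b, fun i => ev i ∘ₗ s', ?_, ?_⟩
  · intro i a c
    change ev i (s' (j a * c)) = a * ev i (s' c)
    rw [hs']
    generalize s' c = t
    induction t using TensorProduct.induction_on with
    | zero => simp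
    | add x y hx hy => simp only [map_add, hx, hy, mul_add]
    | tmul x y =>
      rw [TensorProduct.map_tmul]
      change ev i ((a * x) ⊗ₜ y) = _
      rw [hev, hev, mul_smul_comm]
  · intro c
    conv_rhs => rw [← hms c]
    change ∑ i, j (ev i (s' c)) * b i = m (s' c)
    generalize s' c = t
    induction t using TensorProduct.induction_on with
    | zero => simp
    | add x y hx hy => simp only [map_add, add_mul, Finset.sum_add_distrib, hx, hy]
    | tmul x y =>
      simp only [hev, map_smul, smul_mul_assoc]
      change _ = j x * y
      conv_rhs => rw [← b.sum_repr y, Finset.mul_sum]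
      refine Finset.sum_congr rfl fun i _ => ?_
      rw [mul_smul_comm]
      rfl

end Pool.Agent.H42.HA
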