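import Pool.Agent.H42.HA.Shap

/-!
# The relative trace for a Hopf subalgebra with a relative integral
-/

open CategoryTheory Abelian TensorProduct Coalgebra HopfAlgebra
open scoped ModuleCat
open Pool.Agent.H26.FG Pool.Agent.H26.FG.LSaux

universe u

namespace Pool.Agent.H42.HA

variable {k : Type u} [Field k] {D C : Type u} [Ring D] [HopfAlgebra k D]
  [Ring C] [HopfAlgebra k C] (j : D →ₐc[k] C)

/-- The coinduction functor for a homomorphism of Hopf algebras. -/
noncomputable abbrev KK : ModuleCat.{u} D ⥤ ModuleCat.{u} C :=
  hT0f_K ((j : D →ₐ[k] C)).toRingHom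

/-- The restriction functor for a homomorphism of Hopf algebras. -/
noncomputable abbrev RR : ModuleCat.{u} C ⥤ ModuleCat.{u} D :=
  resF ((j : D →ₐ[k] C)).toRingHom

/-- The values of an element of a coinduced module. -/
noncomputable def gv {N : ModuleCat.{u} C} (g : (KK j).obj ((RR j).obj N)) : C →ₗ[k] N where
  toFun x := (ModuleCat.CoextendScalars.equiv _ _ g :
    (ModuleCat.restrictScalars ((j : D →ₐ[k] C)).toRingHom).obj (ModuleCat.of C C) →ₗ[D]
      (RR j).obj N) x
  map_add' x y := map_add (ModuleCat.CoextendScalars.equiv ((j : D →ₐ[k] C)).toRingHom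
    ((RR j).obj N) g) x y
  map_smul' r x := by
    have h1 : (r • x : C) = (j : D →ₐ[k] C) (algebraMap k D r) * x := by
      rw [AlgHom.commutes, ← Algebra.smul_def]
    rw [h1]
    have h2 := (ModuleCat.CoextendScalars.equiv ((j : D →ₐ[k] C)).toRingHom
      ((RR j).obj N) g).map_smul (algebraMap k D r) x
    refine h2.trans ?_
    have h3 : ∀ n : N, (j : D →ₐ[k] C) (algebraMap k D r) • n = r • n := by
      intro n
      rw [AlgHom.commutes]
      exact algebraMap_smul C r n
    exact h3 _

lemma gv_mul {N : ModuleCat.{u} C} (g : (KK j).obj ((RR j).obj N)) (d : D) (x : C) :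
    gv j g (j d * x) = j d • gv j g x :=
  (ModuleCat.CoextendScalars.equiv ((j : D →ₐ[k] C)).toRingHom
      ((RR j).obj N) g).map_smul d x

lemma gv_smul {N : ModuleCat.{u} C} (g : (KK j).obj ((RR j).obj N)) (c : C) (x : C) :
    gv j (c • g) x = gv j g (x * c) := rfl

lemma gv_add {N : ModuleCat.{u} C} (g g' : (KK j).obj ((RR j).obj N)) (x : C) :
    gv j (g + g') x = gv j g x + gv j g' x := rfl

lemma gv_map {N N' : ModuleCat.{u} C} (φ : N ⟶ N') (g : (KK j).obj ((RR j).obj N)) (x : C) :
    gv j ((KK j).map ((RR j).map φ) g) x = φ (gv j g x) := rfl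

lemma gv_unit {N : ModuleCat.{u} C} (n : N) (x : C) :
    gv j ((hT0f_adj ((j : D →ₐ[k] C)).toRingHom).unit.app N n) x = x • n := rfl

lemma smul_bi {N : ModuleCat.{u} C} (G : C →ₗ[k] N) :
    Bi k (fun a b : C => (antipode k a • G b : N)) := by
  constructor
  · intro x x' y
    rw [map_add, add_smul]
  · intro r x y
    rw [map_smul, smul_assoc]
  · intro x y y'
    rw [map_add, smul_add]
  · intro r x y
    rw [map_smul, smul_comm]

/-- `x ↦ ∑ S(x₁) g(x₂)`. -/
noncomputable def PL {N : ModuleCat.{u} C} (G : C →ₗ[k] N) : C →ₗ[k] N :=
  TensorProduct.lift (smul_bi G).map ∘ₗ comul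

lemma PL_apply {N : ModuleCat.{u} C} (G : C →ₗ[k] N) (x : C) :
    PL G x = sw k (fun a b => (antipode k a • G b : N)) x :=
  ((smul_bi G).sw_lift x).symm

/-- `∑ S(x₁) g(x₂)` for `x ∈ ι(D⁺) C` is zero. -/
lemma PL_mul {N : ModuleCat.{u} C} (g : (KK j).obj ((RR j).obj N)) (d : D) (x : C) :
    PL (gv j g) (j d * x) = counit (R := k) d • PL (gv j g) x := by
  rw [PL_apply, sw_mul_eq (smul_bi (gv j g))]
  have h1 : sw k (fun p q => sw k (fun a b => (antipode k (p * a) • gv j g (q * b) : N)) x)
      (j d) = sw k (fun p q => sw k (fun a b =>
        ((antipode k a * (antipode k p * q)) • gv j g b : N)) x) (j d) := by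
    have hB1 : Bi k (fun p q : C => sw k (fun a b =>
        (antipode k (p * a) • gv j g (q * b) : N)) x) := by
      constructor
      · intro p p' q
        unfold sw
        rw [← Finset.sum_add_distrib]
        exact Finset.sum_congr rfl fun i _ => by
          dsimp only
          rw [add_mul, map_add, add_smul]
      · intro r p q
        unfold sw
        rw [Finset.smul_sum]
        exact Finset.sum_congr rfl fun i _ => by
          dsimp only
          rw [smul_mul_assoc, map_smul, smul_assoc]
      · intro p q q'
        unfold sw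
        rw [← Finset.sum_add_distrib]
        exact Finset.sum_congr rfl fun i _ => by
          dsimp only
          rw [add_mul, map_add, smul_add]
      · intro r p q
        unfold sw
        rw [Finset.smul_sum]
        exact Finset.sum_congr rfl fun i _ => by
          dsimp only
          rw [smul_mul_assoc, map_smul, smul_comm]
    have hB2 : Bi k (fun p q : C => sw k (fun a b =>
        ((antipode k a * (antipode k p * q)) • gv j g b : N)) x) := by
      constructor
      · intro p p' q
        unfold sw
        rw [← Finset.sum_add_distrib]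
        exact Finset.sum_congr rfl fun i _ => by
          dsimp only
          rw [map_add, add_mul, mul_add, add_smul]
      · intro r p q
        unfold sw
        rw [Finset.smul_sum]
        exact Finset.sum_congr rfl fun i _ => by
          dsimp only
          rw [map_smul, smul_mul_assoc, mul_smul_comm, smul_assoc]
      · intro p q q'
        unfold sw
        rw [← Finset.sum_add_distrib]
        exact Finset.sum_congr rfl fun i _ => by
          dsimp only
          rw [mul_add, mul_add, add_smul]
      · intro r p q
        unfold sw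
        rw [Finset.smul_sum]
        exact Finset.sum_congr rfl fun i _ => by
          dsimp only
          rw [mul_smul_comm, mul_smul_comm, smul_assoc]
    have hc : comul (R := k) (j d) = ∑ i ∈ (ℛ k d).index,
        j ((ℛ k d).left i) ⊗ₜ[k] j ((ℛ k d).right i) := by
      rw [h85_comul]
      conv_lhs => rw [← (ℛ k d).eq]
      rw [map_sum]
      rfl
    rw [hB1.sw_eq hc, hB2.sw_eq hc]
    refine Finset.sum_congr rfl fun i _ => ?_
    congr 1
    funext a b
    rw [gv_mul, HopfAlgebra.antipode_mul_antidistrib, ← mul_smul, mul_assoc]
  rw [h1]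
  let L : C →ₗ[k] N :=
    { toFun := fun y => sw k (fun a b => ((antipode k a * y) • gv j g b : N)) x
      map_add' := fun y y' => by
        unfold sw
        rw [← Finset.sum_add_distrib]
        exact Finset.sum_congr rfl fun i _ => by
          dsimp only
          rw [mul_add, add_smul]
      map_smul' := fun r y => by
        unfold sw
        rw [RingHom.id_apply, Finset.smul_sum]
        exact Finset.sum_congr rfl fun i _ => by
          dsimp only
          rw [mul_smul_comm, smul_assoc] }
  have h2 := map_sw (k := k) L (fun p q : C => antipode k p * q) (j d)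
  rw [sw_S_mul, map_smul, h85_counit] at h2
  refine h2.symm.trans ?_
  congr 1
  rw [PL_apply]
  change sw k (fun a b => ((antipode k a * 1) • gv j g b : N)) x = _
  congr 1
  funext a b
  rw [mul_one]

/-- `∑ c₁ Φ(x c₂) = Φ_{c g}(x)`. -/
lemma PL_smul {N : ModuleCat.{u} C} (g : (KK j).obj ((RR j).obj N)) (c x : C) :
    sw k (fun a b => (a • PL (gv j g) (x * b) : N)) c = PL (gv j (c • g)) x := by
  have h1 : ∀ a b : C, (a • PL (gv j g) (x * b) : N) =
      sw k (fun p q => sw k (fun s t => ((a * (antipode k s * antipode k p)) • gv j g (q * t) : N)) b)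
        x := by
    intro a b
    rw [PL_apply, sw_mul_eq (smul_bi (gv j g))]
    unfold sw
    rw [Finset.smul_sum]
    refine Finset.sum_congr rfl fun i _ => ?_
    rw [Finset.smul_sum]
    refine Finset.sum_congr rfl fun l _ => ?_
    dsimp only
    rw [HopfAlgebra.antipode_mul_antidistrib, ← mul_smul]
  simp only [h1]
  have h2 : sw k (fun a b => sw k (fun p q => sw k (fun s t =>
      ((a * (antipode k s * antipode k p)) • gv j g (q * t) : N)) b) x) c =
      sw k (fun p q => sw k (fun a b => sw k (fun s t =>
      ((a * (antipode k s * antipode k p)) • gv j g (q * t) : N)) b) c) x := by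
    unfold sw
    rw [Finset.sum_comm]
  rw [h2, PL_apply]
  congr 1
  funext p q
  have hT : Tri k (fun a s t : C =>
      ((a * (antipode k s * antipode k p)) • gv j g (q * t) : N)) := by
    constructor
    · intro a a' s t; rw [add_mul, add_smul]
    · intro r a s t; rw [smul_mul_assoc, smul_assoc]
    · intro a s s' t; rw [map_add, add_mul, mul_add, add_smul]
    · intro r a s t; rw [map_smul, smul_mul_assoc, mul_smul_comm, smul_assoc]
    · intro a s t t'; rw [mul_add, map_add, smul_add]
    · intro r a s t; rw [mul_smul_comm, map_smul, smul_comm]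
  rw [← coas hT]
  have h3 : ∀ u t : C, sw k (fun a s =>
      ((a * (antipode k s * antipode k p)) • gv j g (q * t) : N)) u =
      counit (R := k) u • (antipode k p • gv j g (q * t) : N) := by
    intro u t
    let L : C →ₗ[k] N :=
      { toFun := fun y => ((y * antipode k p) • gv j g (q * t) : N)
        map_add' := fun y y' => by rw [add_mul, add_smul]
        map_smul' := fun r y => by rw [smul_mul_assoc, smul_assoc, RingHom.id_apply] }
    have h4 := map_sw (k := k) L (fun a s => a * antipode k s) u
    rw [sw_mul_S, map_smul] at h4
    have h5 : L 1 = (antipode k p • gv j g (q * t) : N) := by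
      change ((1 * antipode k p) • gv j g (q * t) : N) = _
      rw [one_mul]
    rw [h5] at h4
    rw [h4]
    congr 1
    funext a s
    change _ = (((a * antipode k s) * antipode k p) • gv j g (q * t) : N)
    rw [mul_assoc]
  simp only [h3]
  let L : C →ₗ[k] N :=
    { toFun := fun y => (antipode k p • gv j g (q * y) : N)
      map_add' := fun y y' => by rw [mul_add, map_add, smul_add]
      map_smul' := fun r y => by rw [mul_smul_comm, map_smul, smul_comm, RingHom.id_apply] }
  exact sw_eps_l (k := k) L c

/-- `t` is a relative right integral: `t c - ε(c) t ∈ ι(D⁺) C`. -/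
def RelInt (t : C) : Prop := ∀ c : C, t * c - counit (R := k) c • t ∈
  Submodule.span k {x : C | ∃ (d : D) (y : C), counit (R := k) d = 0 ∧ x = j d * y}

/-- The trace `Hom_D(C, N) → N`, `g ↦ ∑ S(t₁) g(t₂)`. -/
noncomputable def theta {t : C} (ht : RelInt j t) :
    (RR j) ⋙ (KK j) ⟶ 𝟭 (ModuleCat.{u} C) where
  app N := ModuleCat.ofHom (X := (KK j).obj ((RR j).obj N)) (Y := N)
    { toFun := fun g => PL (gv j g) t
      map_add' := fun g g' => by
        rw [PL_apply, PL_apply, PL_apply]
        unfold sw
        rw [← Finset.sum_add_distrib]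
        refine Finset.sum_congr rfl fun i _ => ?_
        dsimp only
        rw [gv_add, smul_add]
      map_smul' := fun c g => by
        refine Eq.trans (PL_smul j g c t).symm ?_
        have h1 : ∀ b : C, PL (gv j g) (t * b) = counit (R := k) b • PL (gv j g) t := by
          intro b
          rw [← sub_eq_zero, ← map_smul, ← map_sub]
          have h2 := ht b
          generalize t * b - counit (R := k) b • t = z at h2
          induction h2 using Submodule.span_induction with
          | zero => rw [map_zero]
          | add x y _ _ hx hy => rw [map_add, hx, hy, add_zero]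
          | smul r x _ hx => rw [map_smul, hx, smul_zero]
          | mem x hx =>
            obtain ⟨d, y, hd, rfl⟩ := hx
            rw [PL_mul, hd, zero_smul]
        simp only [h1]
        let L : C →ₗ[k] N :=
          { toFun := fun a => (a • PL (gv j g) t : N)
            map_add' := fun y y' => add_smul _ _ _
            map_smul' := fun r y => by rw [smul_assoc, RingHom.id_apply] }
        refine Eq.trans ?_ (sw_eps_r (k := k) L c)
        congr 1
        funext a b
        change _ = counit (R := k) b • (a • PL (gv j g) t : N)
        rw [smul_comm] }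
  naturality N N' φ := by
    ext g
    change PL (gv j ((KK j).map ((RR j).map φ) g)) t = φ (PL (gv j g) t)
    rw [PL_apply, PL_apply]
    unfold sw
    rw [map_sum]
    refine Finset.sum_congr rfl fun i _ => ?_
    dsimp only
    rw [gv_map]
    exact (map_smul φ.hom _ _).symm

lemma unit_theta {t : C} (ht : RelInt j t) (hε : counit (R := k) t = 1) (N : ModuleCat.{u} C) :
    (hT0f_adj ((j : D →ₐ[k] C)).toRingHom).unit.app N ≫ (theta j ht).app N = 𝟙 N := by
  ext n
  change PL (gv j ((hT0f_adj ((j : D →ₐ[k] C)).toRingHom).unit.app N n)) t = n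
  rw [PL_apply]
  have h1 : ∀ a b : C, (antipode k a •
      gv j ((hT0f_adj ((j : D →ₐ[k] C)).toRingHom).unit.app N n) b : N) =
      (antipode k a * b) • n := by
    intro a b
    rw [gv_unit, mul_smul]
  simp only [h1]
  let L : C →ₗ[k] N :=
    { toFun := fun a => (a • n : N)
      map_add' := fun y y' => add_smul _ _ _
      map_smul' := fun r y => by rw [smul_assoc, RingHom.id_apply] }
  have h2 := map_sw (k := k) L (fun a b => antipode k a * b) t
  rw [sw_S_mul, hε, one_smul] at h2
  refine h2.symm.trans ?_
  exact one_smul C n

end Pool.Agent.H42.HA
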