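import Pool.Agent.H42.HA.Desc1
import Pool.Agent.H26.FG.T0bwd

/-!
# The transfer on Ext for a Hopf subalgebra with a relative integral
-/

open CategoryTheory Abelian TensorProduct Coalgebra HopfAlgebra
open scoped ModuleCat
open Pool.Agent.H26.FG Pool.Agent.H26.FG.LSaux

universe u

namespace Pool.Agent.H42.HA

variable {k : Type u} [Field k] {D C : Type u} [Ring D] [HopfAlgebra k D]
  [Ring C] [HopfAlgebra k C] (j : D →ₐc[k] C)

instance KK_linear : (KK j).Linear k where
  map_smul {M M'} φ c := by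
    ext g
    refine ModuleCat.CoextendScalars.ext (f := (j : D →ₐ[k] C).toRingHom)
      (LinearMap.ext fun (x : C) => ?_)
    change algebraMap k D c • φ.hom ((ModuleCat.CoextendScalars.equiv
      (j : D →ₐ[k] C).toRingHom M g) x) = φ.hom ((ModuleCat.CoextendScalars.equiv
      (j : D →ₐ[k] C).toRingHom M g) (x * algebraMap k C c : C))
    have h1 : (x * algebraMap k C c : C) = (j : D →ₐ[k] C) (algebraMap k D c) * x := by
      rw [AlgHom.commutes, ← Algebra.commutes]
    rw [h1]
    have h2 := (ModuleCat.CoextendScalars.equiv ((j : D →ₐ[k] C)).toRingHom M g).map_smul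
      (algebraMap k D c) x
    refine Eq.trans ?_ (congrArg φ.hom h2).symm
    exact (map_smul φ.hom _ _).symm

/-- The comparison of trivial modules. -/
noncomputable abbrev isoT : triv k D ≅ (RR j).obj (triv k C) :=
  trvIso _ _ (j : D →ₐ[k] C) j.counitAlgHom_comp

/-- The unit for the trivial module. -/
noncomputable def coT : triv k C ⟶ (KK j).obj (triv k D) :=
  (hT0f_adj ((j : D →ₐ[k] C)).toRingHom).unit.app (triv k C) ≫ (KK j).map (isoT j).inv

variable [Limits.PreservesFiniteColimits (KK j)]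

/-- The transfer `Ext_D(k, N) → Ext_C(k, N)`. -/
noncomputable def TR {t : C} (ht : RelInt j t) {N : ModuleCat.{u} C} {n : ℕ}
    (s : Ext (triv k D) ((RR j).obj N) n) : Ext (triv k C) N n :=
  (Ext.mk₀ (coT j)).comp ((s.mapExactFunctor (KK j)).comp (Ext.mk₀ ((theta j ht).app N))
    (add_zero n)) (zero_add n)

lemma TR_add {t : C} (ht : RelInt j t) {N : ModuleCat.{u} C} {n : ℕ}
    (s s' : Ext (triv k D) ((RR j).obj N) n) : TR j ht (s + s') = TR j ht s + TR j ht s' := by
  unfold TR
  rw [Ext.mapExactFunctor_add, Ext.add_comp, Ext.comp_add]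

lemma TR_smul {t : C} (ht : RelInt j t) {N : ModuleCat.{u} C} {n : ℕ} (c : k)
    (s : Ext (triv k D) ((RR j).obj N) n) : TR j ht (c • s) = c • TR j ht s := by
  unfold TR
  rw [Functor.mapExactFunctor_smul, Ext.smul_comp, Ext.comp_smul]

/-- The transfer as a linear map. -/
noncomputable def TRL {t : C} (ht : RelInt j t) (N : ModuleCat.{u} C) (n : ℕ) :
    Ext (triv k D) ((RR j).obj N) n →ₗ[k] Ext (triv k C) N n where
  toFun := TR j ht
  map_add' := TR_add j ht
  map_smul' := TR_smul j ht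

lemma TR_comp_map {t : C} (ht : RelInt j t) {X N : ModuleCat.{u} C} {a b n : ℕ} (h : a + b = n)
    (s : Ext (triv k D) ((RR j).obj X) a) (m : Ext X N b) :
    TR j ht (s.comp (m.mapExactFunctor (RR j)) h) = (TR j ht s).comp m h := by
  unfold TR
  have h1 := map_natTrans (RR j ⋙ KK j) (𝟭 _) (theta j ht) m
  rw [map_id_functor] at h1
  rw [Ext.mapExactFunctor_comp, map_comp_functor, Ext.comp_assoc_of_third_deg_zero]
  refine (congrArg (fun z => (Ext.mk₀ (coT j)).comp ((s.mapExactFunctor (KK j)).comp z h)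
    (zero_add n)) h1).trans ?_
  subst h
  refine Eq.trans (congrArg (fun z => (Ext.mk₀ (coT j)).comp z (zero_add (a + b)))
    (Ext.comp_assoc_of_second_deg_zero (s.mapExactFunctor (KK j))
      (Ext.mk₀ ((theta j ht).app X)) m rfl).symm) ?_
  exact (Ext.comp_assoc _ _ _ (zero_add a) rfl (by omega)).symm

lemma TR_one {t : C} (ht : RelInt j t) (hε : counit (R := k) t = 1) :
    TR j ht (Ext.mk₀ (isoT j).hom) = Ext.mk₀ (𝟙 (triv k C)) := by
  unfold TR
  rw [Ext.mapExactFunctor_mk₀]
  refine (congrArg (fun z => (Ext.mk₀ (coT j)).comp z (zero_add 0))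
    (Ext.mk₀_comp_mk₀ _ _)).trans ?_
  refine (Ext.mk₀_comp_mk₀ _ _).trans ?_
  congr 1
  unfold coT
  have h1 : (KK j).map (isoT j).inv ≫ (KK j).map (isoT j).hom = 𝟙 _ := by
    rw [← Functor.map_comp, Iso.inv_hom_id, CategoryTheory.Functor.map_id]
  rw [Category.assoc, reassoc_of% h1]
  exact unit_theta j ht hε (triv k C)

lemma TR_res {t : C} (ht : RelInt j t) (hε : counit (R := k) t = 1) {N : ModuleCat.{u} C}
    {n : ℕ} (m : Ext (triv k C) N n) :
    TR j ht (resX (j : D →ₐ[k] C) j.counitAlgHom_comp m) = m := by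
  have h := TR_comp_map j ht (zero_add n) (Ext.mk₀ (isoT j).hom) m
  rw [TR_one j ht hε, Ext.mk₀_id_comp] at h
  exact h

/-- The transfer on `Ext(k, k)`. -/
noncomputable def trk {t : C} (ht : RelInt j t) {n : ℕ} (s : Ext (triv k D) (triv k D) n) :
    Ext (triv k C) (triv k C) n :=
  TR j ht (s.comp (Ext.mk₀ (isoT j).hom) (add_zero n))

lemma trk_comp {t : C} (ht : RelInt j t) {N : ModuleCat.{u} C} {a b n : ℕ} (h : a + b = n)
    (s : Ext (triv k D) (triv k D) a) (m : Ext (triv k C) N b) :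
    TR j ht (s.comp (resX (j : D →ₐ[k] C) j.counitAlgHom_comp m) h) = (trk j ht s).comp m h := by
  unfold trk
  rw [← TR_comp_map]
  congr 1
  subst h
  exact (Ext.comp_assoc_of_second_deg_zero _ _ _ _).symm

lemma trk_comp_res {t : C} (ht : RelInt j t) {a b n : ℕ} (h : a + b = n)
    (s : Ext (triv k D) (triv k D) a) (m : Ext (triv k C) (triv k C) b) :
    trk j ht (s.comp (res j m) h) = (trk j ht s).comp m h := by
  rw [← trk_comp]
  unfold trk
  congr 1
  subst h
  unfold res resK
  rw [Ext.comp_assoc_of_third_deg_zero, Ext.comp_assoc_of_third_deg_zero, Ext.mk₀_comp_mk₀,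
    Iso.inv_hom_id, Ext.comp_mk₀_id]

lemma trk_res {t : C} (ht : RelInt j t) (hε : counit (R := k) t = 1) {n : ℕ}
    (m : Ext (triv k C) (triv k C) n) : trk j ht (res j m) = m := by
  unfold trk res resK
  rw [Ext.comp_assoc_of_third_deg_zero, Ext.mk₀_comp_mk₀, Iso.inv_hom_id, Ext.comp_mk₀_id]
  exact TR_res j ht hε m

/-- The transfer on `Ext(k, k)` as a linear map. -/
noncomputable def trkL {t : C} (ht : RelInt j t) (n : ℕ) :
    Ext (triv k D) (triv k D) n →ₗ[k] Ext (triv k C) (triv k C) n where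
  toFun := trk j ht
  map_add' s s' := by
    unfold trk
    rw [Ext.add_comp, TR_add]
  map_smul' c s := by
    unfold trk
    rw [Ext.smul_comp, TR_smul, RingHom.id_apply]

end Pool.Agent.H42.HA
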