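import Pool.Agent.H42.HA.Desc2

/-!
# FGC descends along a Hopf subalgebra with a relative integral
-/

open CategoryTheory Abelian TensorProduct Coalgebra HopfAlgebra
open scoped ModuleCat
open Pool.Agent.H26.FG Pool.Agent.H26.FG.LSaux

universe u

namespace Pool.Agent.H42.HA

variable {k : Type u} [Field k] {D C : Type u} [Ring D] [HopfAlgebra k D] [Module.Finite k D]
  [Ring C] [HopfAlgebra k C] [Module.Finite k C] (j : D →ₐc[k] C)

omit [Module.Finite k C] in
lemma mem_gen {T : Set (Cls (triv k C))} {N : ModuleCat.{u} C} {s : Cls (triv k C)} (hs : s ∈ T)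
    {a n : ℕ} (h : s.1 + a = n) (v : Ext (triv k C) N a) :
    s.2.comp v h ∈ (EGP k (triv k C) N).Gen T (fun _ => ⊤) n :=
  Submodule.subset_span ⟨s, hs, a, h, v, Submodule.mem_top, rfl⟩

omit [Module.Finite k C] in
/-- Finitely many classes of `T` generate all classes of `T`. -/
theorem desc_fin [Limits.PreservesFiniteColimits (KK j)] {t : C} (ht : RelInt j t)
    (hε : counit (R := k) t = 1) (hD : FGC k D) (T : Set (Cls (triv k C))) :
    ∃ T' ⊆ T, T'.Finite ∧ ∀ (n : ℕ) (x : Ext (triv k C) (triv k C) n),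
      (⟨n, x⟩ : Cls (triv k C)) ∈ T →
        x ∈ (EGP k (triv k C) (triv k C)).Gen T' (fun _ => ⊤) n := by
  obtain ⟨X, hXD, hXf, hX'⟩ := hT0b_fin (k := k) (A := D) hD (resCls j '' T)
  obtain ⟨T', hT1, hT2, hT3⟩ : ∃ T' ⊆ T, T'.Finite ∧ resCls j '' T' = X :=
    (Set.exists_subset_image_finite_and (p := fun t => t = X)).1 ⟨X, hXD, hXf, rfl⟩
  refine ⟨T', hT1, hT2, fun n x hx => ?_⟩
  have h1 : res j x ∈ (EGP k (triv k D) (triv k D)).Gen (resCls j '' T) (fun _ => ⊤) n := by
    refine Submodule.subset_span ⟨resCls j ⟨n, x⟩, ⟨_, hx, rfl⟩, 0, add_zero n,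
      Ext.mk₀ (𝟙 _), Submodule.mem_top, ?_⟩
    exact Ext.comp_mk₀_id _
  have h2 := hX' n h1
  have h3 : (EGP k (triv k D) (triv k D)).Gen X (fun _ => ⊤) n ≤
      ((EGP k (triv k C) (triv k C)).Gen T' (fun _ => ⊤) n).comap (trkL j ht n) := by
    refine Submodule.span_le.2 ?_
    rintro _ ⟨s, hs, a, h, v, -, rfl⟩
    rw [← hT3] at hs
    obtain ⟨⟨p, s₀⟩, hs₀, rfl⟩ := hs
    change Ext (triv k D) (triv k D) a at v
    have h : p + a = n := h
    change trkL j ht n ((res j s₀).comp v h) ∈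
      (EGP k (triv k C) (triv k C)).Gen T' (fun _ => ⊤) n
    have e1 : (res j s₀).comp v h = ((-1 : ℤ) ^ (p * a)) • v.comp (res j s₀)
        ((add_comm a p).trans h) := comp_comm _ _ _ _
    rw [e1, map_zsmul]
    refine zsmul_mem ?_ _
    change trk j ht (v.comp (res j s₀) ((add_comm a p).trans h)) ∈
      (EGP k (triv k C) (triv k C)).Gen T' (fun _ => ⊤) n
    rw [trk_comp_res]
    have e2 : (trk j ht v).comp s₀ ((add_comm a p).trans h) = ((-1 : ℤ) ^ (a * p)) •
        s₀.comp (trk j ht v) h := comp_comm _ _ _ _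
    rw [e2]
    exact zsmul_mem (mem_gen (k := k) hs₀ h (trk j ht v)) _
  have h4 : trk j ht (res j x) ∈ (EGP k (triv k C) (triv k C)).Gen T' (fun _ => ⊤) n := h3 h2
  rwa [trk_res j ht hε] at h4

/-- In high degrees, all classes are products with classes of positive degree. -/
theorem desc_mod [Limits.PreservesFiniteColimits (KK j)] {t : C} (ht : RelInt j t)
    (hε : counit (R := k) t = 1) (hD : FGC k D) (N : ModuleCat.{u} C) (hN : Module.Finite k N) :
    ∃ n₀ : ℕ, ∀ n, n₀ < n → ∀ m : Ext (triv k C) N n, m ∈ Submodule.span k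
      {z : Ext (triv k C) N n | ∃ (a b : ℕ) (h : a + b = n), 0 < a ∧
        ∃ (r : Ext (triv k C) (triv k C) a) (m' : Ext (triv k C) N b), r.comp m' h = z} := by
  obtain ⟨S, -, hS', hGN⟩ := FGC_GN k D hD
  have hRN : Module.Finite k ((RR j).obj N) := by
    let e : N →ₗ[k] (RR j).obj N :=
      { toFun := fun x => (show (RR j).obj N from x)
        map_add' := fun x y => rfl
        map_smul' := fun c x => by
          rw [RingHom.id_apply]
          have h1 : (c • (show (RR j).obj N from x) : (RR j).obj N) =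
            algebraMap k D c • (show (RR j).obj N from x) := (algebraMap_smul D c _).symm
          rw [h1]
          change c • x = (j : D →ₐ[k] C) (algebraMap k D c) • x
          rw [AlgHom.commutes]
          exact (algebraMap_smul C c x).symm }
    exact Module.Finite.of_surjective e fun x => ⟨x, rfl⟩
  let rx : ∀ {b : ℕ}, Ext (triv k C) N b → Ext (triv k D) ((RR j).obj N) b := fun m =>
    resX (j : D →ₐ[k] C) j.counitAlgHom_comp m
  let W : (n : ℕ) → Submodule k (Ext (triv k D) ((RR j).obj N) n) := fun n =>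
    Submodule.span k {z | ∃ (a b : ℕ) (h : a + b = n) (s : Ext (triv k D) (triv k D) a)
      (m : Ext (triv k C) N b), s.comp (rx m) h = z}
  have hWst : (EGP k (triv k D) ((RR j).obj N)).Stable S W := by
    intro i hi a b h v hv
    have h : i.1 + a = b := h
    change i.2.comp v h ∈ W b
    have key : W a ≤ (W b).comap (Ext.precompOfLinear i.2 k ((RR j).obj N) h) := by
      refine Submodule.span_le.2 ?_
      rintro _ ⟨p, q, hpq, s, m, rfl⟩
      refine Submodule.subset_span ⟨i.1 + p, q, by omega, i.2.comp s rfl, m, ?_⟩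
      exact Ext.comp_assoc i.2 s (rx m) rfl hpq (by omega)
    exact key hv
  obtain ⟨n₀, hn₀⟩ := hGN ((RR j).obj N) hRN W hWst
  let W' : (n : ℕ) → Submodule k (Ext (triv k D) ((RR j).obj N) n) := fun n =>
    Submodule.span k {z | ∃ (a b : ℕ) (h : a + b = n), b ≤ n₀ ∧
      ∃ (s : Ext (triv k D) (triv k D) a) (m : Ext (triv k C) N b), s.comp (rx m) h = z}
  have hWW' : ∀ n, W n ≤ W' n := by
    intro n
    induction n using Nat.strong_induction_on with
    | _ n ih =>
      rcases le_or_gt n n₀ with hn | hn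
      · refine Submodule.span_le.2 ?_
        rintro _ ⟨p, q, hpq, s, m, rfl⟩
        exact Submodule.subset_span ⟨p, q, hpq, by omega, s, m, rfl⟩
      · refine (hn₀ n hn).trans (Submodule.span_le.2 ?_)
        rintro _ ⟨i, hi, a, h, v, hv, rfl⟩
        have hi1 := (hS' i hi).2
        have h : i.1 + a = n := h
        change i.2.comp v h ∈ W' n
        have key : W' a ≤ (W' n).comap (Ext.precompOfLinear i.2 k ((RR j).obj N) h) := by
          refine Submodule.span_le.2 ?_
          rintro _ ⟨p, q, hpq, hq, s, m, rfl⟩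
          refine Submodule.subset_span ⟨i.1 + p, q, by omega, hq, i.2.comp s rfl, m, ?_⟩
          exact Ext.comp_assoc i.2 s (rx m) rfl hpq (by omega)
        exact key (ih a (by omega) hv)
  refine ⟨n₀, fun n hn m => ?_⟩
  have h1 : rx m ∈ W n := by
    refine Submodule.subset_span ⟨0, n, zero_add n, Ext.mk₀ (𝟙 _), m, ?_⟩
    exact Ext.mk₀_id_comp _
  have h2 : W' n ≤ (Submodule.span k
      {z : Ext (triv k C) N n | ∃ (a b : ℕ) (h : a + b = n), 0 < a ∧
        ∃ (r : Ext (triv k C) (triv k C) a) (m' : Ext (triv k C) N b), r.comp m' h = z}).comap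
          (TRL j ht N n) := by
    refine Submodule.span_le.2 ?_
    rintro _ ⟨p, q, hpq, hq, s, m, rfl⟩
    refine Submodule.subset_span ⟨p, q, hpq, by omega, trk j ht s, m, ?_⟩
    exact (trk_comp j ht hpq s m).symm
  have h3 : TR j ht (rx m) ∈ (Submodule.span k
      {z : Ext (triv k C) N n | ∃ (a b : ℕ) (h : a + b = n), 0 < a ∧
        ∃ (r : Ext (triv k C) (triv k C) a) (m' : Ext (triv k C) N b), r.comp m' h = z}) :=
    h2 (hWW' n h1)
  rwa [TR_res j ht hε] at h3

omit [Module.Finite k C] in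
/-- A product with an element of `Gen`. -/
lemma gen_comp {T : Set (Cls (triv k C))} {N : ModuleCat.{u} C} {a b n : ℕ} (h : a + b = n)
    {r : Ext (triv k C) (triv k C) a}
    (hr : r ∈ (EGP k (triv k C) (triv k C)).Gen T (fun _ => ⊤) a) (m : Ext (triv k C) N b) :
    r.comp m h ∈ (EGP k (triv k C) N).Gen T (fun _ => ⊤) n := by
  have key : (EGP k (triv k C) (triv k C)).Gen T (fun _ => ⊤) a ≤
      ((EGP k (triv k C) N).Gen T (fun _ => ⊤) n).comap
        (Ext.postcompOfLinear m k (triv k C) h) := by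
    refine Submodule.span_le.2 ?_
    rintro _ ⟨s, hs, c, hc, v, -, rfl⟩
    change Ext (triv k C) (triv k C) c at v
    have hc : s.1 + c = a := hc
    refine Submodule.subset_span ⟨s, hs, c + b, (show s.1 + (c + b) = n by omega),
      v.comp m rfl, Submodule.mem_top, ?_⟩
    exact (Ext.comp_assoc s.2 v m hc rfl (by omega)).symm
  exact key hr

/-- FGC descends along a Hopf subalgebra with a relative integral of augmentation one. -/
theorem FGC_desc (hj : Function.Injective j) {t : C} (ht : RelInt j t)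
    (hε : counit (R := k) t = 1) (hD : FGC k D) : FGC k C := by
  obtain ⟨nw, w, φ, hφ, hw⟩ := exists_dual_basis_sub j hj
  have hcol : Limits.PreservesFiniteColimits (KK j) :=
    hT0f_colim (j : D →ₐ[k] C).toRingHom w (fun i => (φ i).toAddMonoidHom)
      (fun i a c => hφ i a c) hw
  obtain ⟨T1, hT1, hT1f, hT1g⟩ := desc_fin j ht hε hD {c | Even c.1 ∧ 0 < c.1}
  obtain ⟨T2, hT2, hT2f, hT2g⟩ := desc_fin j ht hε hD {c | Odd c.1}
  refine FGC_of_GF k C T1 hT1f (fun s hs => (hT1 hs).2) fun N hN => ?_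
  obtain ⟨n₀, hn₀⟩ := desc_mod j ht hε hD N hN
  obtain ⟨n₂, hn₂⟩ := (hT2f.image Sigma.fst).bddAbove
  have h1 : ∀ n, n₀ < n → ∀ m : Ext (triv k C) N n,
      m ∈ (EGP k (triv k C) N).Gen T1 (fun _ => ⊤) n ⊔
        (EGP k (triv k C) N).Gen T2 (fun _ => ⊤) n := by
    intro n hn m
    have h0 : Submodule.span k
        {z : Ext (triv k C) N n | ∃ (a b : ℕ) (h : a + b = n), 0 < a ∧
          ∃ (r : Ext (triv k C) (triv k C) a) (m' : Ext (triv k C) N b), r.comp m' h = z} ≤
        (EGP k (triv k C) N).Gen T1 (fun _ => ⊤) n ⊔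
          (EGP k (triv k C) N).Gen T2 (fun _ => ⊤) n := by
      refine Submodule.span_le.2 ?_
      rintro _ ⟨a, b, h, ha, r, m', rfl⟩
      rcases Nat.even_or_odd a with hev | hodd
      · have h3 := gen_comp h (hT1g a r ⟨hev, ha⟩) m'
        exact (le_sup_left : (EGP k (triv k C) N).Gen T1 (fun _ => ⊤) n ≤ _) h3
      · have h3 := gen_comp h (hT2g a r hodd) m'
        exact (le_sup_right : (EGP k (triv k C) N).Gen T2 (fun _ => ⊤) n ≤ _) h3
    exact h0 (hn₀ n hn m)
  refine ⟨n₀ + n₂, fun n hn => ?_⟩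
  intro m _
  have h2 : (EGP k (triv k C) N).Gen T2 (fun _ => ⊤) n ≤
      (EGP k (triv k C) N).Gen T1 (fun _ => ⊤) n := by
    refine Submodule.span_le.2 ?_
    rintro _ ⟨o, ho, a, h, v, -, rfl⟩
    change Ext (triv k C) N a at v
    have h : o.1 + a = n := h
    have ho1 : Odd o.1 := hT2 ho
    have ho2 : o.1 ≤ n₂ := hn₂ (Set.mem_image_of_mem Sigma.fst ho)
    change o.2.comp v h ∈ (EGP k (triv k C) N).Gen T1 (fun _ => ⊤) n
    have h3 := h1 a (by omega) v
    have key : (EGP k (triv k C) N).Gen T1 (fun _ => ⊤) a ⊔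
        (EGP k (triv k C) N).Gen T2 (fun _ => ⊤) a ≤
        ((EGP k (triv k C) N).Gen T1 (fun _ => ⊤) n).comap
          (Ext.precompOfLinear o.2 k N h) := by
      refine sup_le (Submodule.span_le.2 ?_) (Submodule.span_le.2 ?_)
      · rintro _ ⟨s, hs, c, hc, v', -, rfl⟩
        change Ext (triv k C) N c at v'
        have hc : s.1 + c = a := hc
        have hs1 : Even s.1 := (hT1 hs).1
        have hsn : s.1 + (o.1 + c) = n := by omega
        refine Submodule.subset_span ⟨s, hs, o.1 + c, hsn,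
          o.2.comp v' rfl, Submodule.mem_top, ?_⟩
        change s.2.comp (o.2.comp v' rfl) hsn = o.2.comp (s.2.comp v' hc) h
        rw [← Ext.comp_assoc s.2 o.2 v' (rfl : s.1 + o.1 = s.1 + o.1) rfl (by omega),
          comp_comm_of_even hs1 s.2 o.2 rfl (add_comm o.1 s.1),
          Ext.comp_assoc o.2 s.2 v' (add_comm o.1 s.1) hc (by omega)]
      · rintro _ ⟨o', ho', c, hc, v', -, rfl⟩
        change Ext (triv k C) N c at v'
        have hc : o'.1 + c = a := hc
        have ho'1 : Odd o'.1 := hT2 ho'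
        change o.2.comp (o'.2.comp v' hc) h ∈ (EGP k (triv k C) N).Gen T1 (fun _ => ⊤) n
        rw [← Ext.comp_assoc o.2 o'.2 v' (rfl : o.1 + o'.1 = o.1 + o'.1) hc (by omega)]
        refine gen_comp (by omega) (hT1g (o.1 + o'.1) (o.2.comp o'.2 rfl) ⟨ho1.add_odd ho'1, ?_⟩) v'
        exact lt_of_lt_of_le ho1.pos (Nat.le_add_right _ _)
    exact key h3
  have h4 := h1 n (by omega) m
  exact (sup_le le_rfl h2) h4

end Pool.Agent.H42.HA
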