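import Pool.Agent.H42.HA.Phi

/-!
# A finite-dimensional Hopf algebra is projective over its Hopf subalgebras: the integral
-/

open CategoryTheory TensorProduct Coalgebra HopfAlgebra WithConv
open Pool.Agent.H26.FG Pool.Agent.H26.FG.LSaux

universe u v w

namespace Pool.Agent.H42.HA

section One

variable {k : Type u} [Field k] {D : Type u} [Ring D] [HopfAlgebra k D]
  {V : Type v} [AddCommGroup V] [Module k V]

lemma trc_Tm {Γ : D} (hΓ : ∀ d : D, Γ * d = counit (R := k) d • Γ) {γ : D →ₗ[k] k}
    (hγ : γ Γ = 1) : trc Γ (Algebra.lmul k D) (Tm γ) = 1 := by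
  refine LinearMap.ext fun d => ?_
  have h1 : trc Γ (Algebra.lmul k D) (Tm γ) d =
      sw k (fun x y => antipode k x * Tm γ (y * d)) Γ := by
    unfold trc sw
    simp only [LinearMap.sum_apply]
    rfl
  rw [h1]
  have hB : Bi k (fun x y : D => γ y • x) := by
    constructor <;> intros <;> simp [add_smul, smul_smul, mul_comm]
  have h2 : ∀ x y : D, antipode k x * Tm γ (y * d) = sw k (fun a b => sw k (fun c e =>
      γ (b * e) • (antipode k x * (a * c))) d) y := by
    intro x y
    rw [Tm_sw, sw_mul_eq hB, mul_sw]
    congr 1
    funext a b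
    rw [mul_sw]
    congr 1
    funext c e
    rw [mul_smul_comm]
  simp only [h2]
  have hT : Tri k (fun x a b : D => sw k (fun c e =>
      γ (b * e) • (antipode k x * (a * c))) d) := by
    constructor
    · intro x x' a b
      unfold sw
      rw [← Finset.sum_add_distrib]
      exact Finset.sum_congr rfl fun i _ => by
        dsimp only
        rw [map_add, add_mul, smul_add]
    · intro r x a b
      unfold sw
      rw [Finset.smul_sum]
      exact Finset.sum_congr rfl fun i _ => by
        dsimp only
        rw [map_smul, smul_mul_assoc, smul_comm]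
    · intro x a a' b
      unfold sw
      rw [← Finset.sum_add_distrib]
      exact Finset.sum_congr rfl fun i _ => by
        dsimp only
        rw [add_mul, mul_add, smul_add]
    · intro r x a b
      unfold sw
      rw [Finset.smul_sum]
      exact Finset.sum_congr rfl fun i _ => by
        dsimp only
        rw [smul_mul_assoc, mul_smul_comm, smul_comm]
    · intro x a b b'
      unfold sw
      rw [← Finset.sum_add_distrib]
      exact Finset.sum_congr rfl fun i _ => by
        dsimp only
        rw [add_mul, map_add, add_smul]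
    · intro r x a b
      unfold sw
      rw [Finset.smul_sum]
      exact Finset.sum_congr rfl fun i _ => by
        dsimp only
        rw [smul_mul_assoc, map_smul, smul_eq_mul, mul_smul]
  rw [← coas hT]
  have h3 : ∀ u b : D, sw k (fun x a => sw k (fun c e =>
      γ (b * e) • (antipode k x * (a * c))) d) u =
      counit (R := k) u • sw k (fun c e => γ (b * e) • c) d := by
    intro u b
    have h4 := map_sw (k := k) (LinearMap.toSpanSingleton k D 1) (fun _ _ : D => (0 : k)) u
    have h5 : ∀ x a : D, sw k (fun c e => γ (b * e) • (antipode k x * (a * c))) d =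
        antipode k x * a * sw k (fun c e => γ (b * e) • c) d := by
      intro x a
      rw [mul_sw]
      congr 1
      funext c e
      rw [mul_smul_comm, mul_assoc]
    simp only [h5]
    rw [← sw_mul, sw_S_mul, smul_mul_assoc, one_mul]
  simp only [h3]
  have h6 := sw_eps_l (k := k) ({ toFun := fun b => sw k (fun c e => γ (b * e) • c) d
                                  map_add' := fun b b' => by
                                    unfold sw
                                    rw [← Finset.sum_add_distrib]
                                    exact Finset.sum_congr rfl fun i _ => by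
                                      dsimp only
                                      rw [add_mul, map_add, add_smul]
                                  map_smul' := fun r b => by
                                    unfold sw
                                    rw [RingHom.id_apply, Finset.smul_sum]
                                    exact Finset.sum_congr rfl fun i _ => by
                                      dsimp only
                                      rw [smul_mul_assoc, map_smul, smul_eq_mul, mul_smul] } :
                                        D →ₗ[k] D) Γ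
  simp only [LinearMap.coe_mk, AddHom.coe_mk] at h6
  rw [h6]
  simp only [hΓ, map_smul, hγ, smul_eq_mul, mul_one]
  exact sw_eps_r (k := k) LinearMap.id d

/-- The action on the left factor only. -/
noncomputable def trivR (k : Type u) [Field k] (D : Type u) [Ring D] [HopfAlgebra k D]
    (V : Type v) [AddCommGroup V] [Module k V] : D →ₐ[k] Module.End k (D ⊗[k] V) :=
  (Module.endTensorEndAlgHom (R := k)).comp
    ((Algebra.TensorProduct.includeLeft).comp (Algebra.lmul k D))

lemma trivR_apply (d : D) : trivR k D V d =
    (TensorProduct.map (Algebra.lmul k D d) LinearMap.id : Module.End k (D ⊗[k] V)) := rfl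

lemma trc_trivR (Γ : D) (ψ : Module.End k D) :
    trc Γ (trivR k D V) (TensorProduct.map ψ LinearMap.id : Module.End k (D ⊗[k] V)) =
      (TensorProduct.map (trc Γ (Algebra.lmul k D) ψ) LinearMap.id :
        Module.End k (D ⊗[k] V)) := by
  refine TensorProduct.ext' fun d v => ?_
  unfold trc sw
  rw [LinearMap.sum_apply, TensorProduct.map_tmul, LinearMap.sum_apply, TensorProduct.sum_tmul]
  refine Finset.sum_congr rfl fun i _ => ?_
  rfl

/-- The identity of `D ⊗ V` is a relative trace. -/
lemma id_trc {Γ : D} (hΓ : ∀ d : D, Γ * d = counit (R := k) d • Γ) {γ : D →ₗ[k] k}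
    (hγ : γ Γ = 1) (σ : D →ₐ[k] Module.End k V) :
    ∃ Ψ : Module.End k (D ⊗[k] V), trc Γ (tens (Algebra.lmul k D) σ) Ψ = 1 := by
  refine ⟨Phi σ.toLinearMap ∘ₗ (TensorProduct.map (Tm γ) LinearMap.id) ∘ₗ Theta σ, ?_⟩
  rw [← trc_comp Γ (trivR k D V) (tens (Algebra.lmul k D) σ) (Phi σ.toLinearMap) (Theta σ)
    (fun d => (Phi_equiv σ d).symm) (fun d => Theta_equiv σ d), trc_trivR, trc_Tm hΓ hγ]
  refine LinearMap.ext fun t => ?_
  rw [LinearMap.comp_apply, LinearMap.comp_apply]
  have h : (TensorProduct.map (1 : Module.End k D) LinearMap.id : Module.End k (D ⊗[k] V)) =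
      LinearMap.id := TensorProduct.map_id
  rw [h, LinearMap.id_apply, Phi_Theta]
  rfl

lemma trc_add (Γ : D) (ρ : D →ₐ[k] Module.End k V) (ψ ψ' : Module.End k V) :
    trc Γ ρ (ψ + ψ') = trc Γ ρ ψ + trc Γ ρ ψ' := by
  unfold trc sw
  rw [← Finset.sum_add_distrib]
  refine Finset.sum_congr rfl fun i _ => ?_
  dsimp only
  rw [mul_add, add_mul]

end One

section Two

variable {k : Type u} [Field k] {D C : Type u} [Ring D] [HopfAlgebra k D]
  [Ring C] [HopfAlgebra k C]
  {V : Type v} [AddCommGroup V] [Module k V] {W : Type w} [AddCommGroup W] [Module k W]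

/-- `j` as a homomorphism of algebras. -/
noncomputable abbrev jal (j : D →ₐc[k] C) : D →ₐ[k] C := (j : D →ₐ[k] C)

lemma tens_res (j : D →ₐc[k] C) (ρ : C →ₐ[k] Module.End k V) (σ : C →ₐ[k] Module.End k W) :
    (tens ρ σ).comp (jal j) = tens (ρ.comp (jal j)) (σ.comp (jal j)) := by
  refine AlgHom.ext fun d => ?_
  have hB : Bi k (fun x y : C => (TensorProduct.map (ρ x) (σ y) :
      Module.End k (V ⊗[k] W))) := by
    constructor
    · intro x x' y; rw [map_add, TensorProduct.map_add_left]
    · intro c x y; rw [map_smul, TensorProduct.map_smul_left]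
    · intro x y y'; rw [map_add, TensorProduct.map_add_right]
    · intro c x y; rw [map_smul, TensorProduct.map_smul_right]
  have h1 : comul (R := k) (j d) = ∑ i ∈ (ℛ k d).index,
      j ((ℛ k d).left i) ⊗ₜ[k] j ((ℛ k d).right i) := by
    rw [h85_comul]
    conv_lhs => rw [← (ℛ k d).eq]
    rw [map_sum]
    rfl
  change tens ρ σ (j d) = _
  rw [tens_apply, tens_apply, hB.sw_eq h1]
  rfl

lemma tens_comm (ρ : D →ₐ[k] Module.End k V) (σ : D →ₐ[k] Module.End k W)
    (φ : Module.End k V) (hφ : ∀ d, φ * ρ d = ρ d * φ) (ψ : Module.End k W)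
    (hψ : ∀ d, ψ * σ d = σ d * ψ) (d : D) :
    (TensorProduct.map φ ψ : Module.End k (V ⊗[k] W)) * tens ρ σ d =
      tens ρ σ d * (TensorProduct.map φ ψ : Module.End k (V ⊗[k] W)) := by
  rw [tens_apply, mul_sw, sw_mul]
  congr 1
  funext x y
  rw [← TensorProduct.map_mul, ← TensorProduct.map_mul, hφ, hψ]

/-- The inductive step. -/
lemma nz_step (j : D →ₐc[k] C) {Γ : D} (hΓ : ∀ d : D, Γ * d = counit (R := k) d • Γ)
    {γ : D →ₗ[k] k} (hγ : γ Γ = 1) (r : C →ₗ[k] D) (hr : ∀ d c, r (j d * c) = d * r c)
    (τ : C →ₐ[k] Module.End k V) (e : Module.End k V)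
    (he : ∀ d : D, e * τ (j d) = τ (j d) * e) (ψ : Module.End k V)
    (hψ : 1 - e = trc Γ (τ.comp (jal j)) ψ) :
    (∃ ψ', 1 - (TensorProduct.map (1 - (jal j).toLinearMap ∘ₗ r : Module.End k C) e :
        Module.End k (C ⊗[k] V)) =
        trc Γ ((tens (Algebra.lmul k C) τ).comp (jal j)) ψ') ∧
      ∀ d : D, (TensorProduct.map (1 - (jal j).toLinearMap ∘ₗ r : Module.End k C) e :
        Module.End k (C ⊗[k] V)) * tens (Algebra.lmul k C) τ (j d) =
        tens (Algebra.lmul k C) τ (j d) *
          (TensorProduct.map (1 - (jal j).toLinearMap ∘ₗ r : Module.End k C) e :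
            Module.End k (C ⊗[k] V)) := by
  set p : Module.End k C := (jal j).toLinearMap ∘ₗ r with hp
  have hpc : ∀ d : D, p * ((Algebra.lmul k C).comp (jal j)) d =
      ((Algebra.lmul k C).comp (jal j)) d * p := by
    intro d
    refine LinearMap.ext fun c => ?_
    change j (r (j d * c)) = j d * j (r c)
    rw [hr, map_mul]
  have hec : ∀ d : D, (1 - p) * ((Algebra.lmul k C).comp (jal j)) d =
      ((Algebra.lmul k C).comp (jal j)) d * (1 - p) := by
    intro d
    rw [sub_mul, mul_sub, one_mul, mul_one, hpc]
  constructor
  · obtain ⟨Ψ, hΨ⟩ := id_trc hΓ hγ (τ.comp (jal j))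
    have h1 : (TensorProduct.map p 1 : Module.End k (C ⊗[k] V)) =
        trc Γ ((tens (Algebra.lmul k C) τ).comp (jal j))
          ((TensorProduct.map (jal j).toLinearMap 1) ∘ₗ Ψ ∘ₗ (TensorProduct.map r 1)) := by
      rw [tens_res, ← trc_comp Γ (tens (Algebra.lmul k D) (τ.comp (jal j))) _
        (TensorProduct.map (jal j).toLinearMap 1) (TensorProduct.map r 1) ?_ ?_, hΨ]
      · refine TensorProduct.ext' fun c v => ?_
        rfl
      · intro d
        refine TensorProduct.ext' fun x v => ?_
        rw [LinearMap.comp_apply, LinearMap.comp_apply, tens_apply, tens_apply]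
        unfold sw
        rw [LinearMap.sum_apply, LinearMap.sum_apply, map_sum]
        refine Finset.sum_congr rfl fun i _ => ?_
        dsimp only
        rw [TensorProduct.map_tmul, TensorProduct.map_tmul, TensorProduct.map_tmul,
          TensorProduct.map_tmul]
        change j (_ * x) ⊗ₜ[k] _ = (j _ * j x) ⊗ₜ[k] _
        rw [map_mul]
        rfl
      · intro d
        refine TensorProduct.ext' fun x v => ?_
        rw [LinearMap.comp_apply, LinearMap.comp_apply, tens_apply, tens_apply]
        unfold sw
        rw [LinearMap.sum_apply, LinearMap.sum_apply, map_sum]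
        refine Finset.sum_congr rfl fun i _ => ?_
        dsimp only
        rw [TensorProduct.map_tmul, TensorProduct.map_tmul, TensorProduct.map_tmul,
          TensorProduct.map_tmul]
        change r (j _ * x) ⊗ₜ[k] _ = (_ * r x) ⊗ₜ[k] _
        rw [hr]
        rfl
    have h2 : (TensorProduct.map (1 - p) (1 - e) : Module.End k (C ⊗[k] V)) =
        trc Γ ((tens (Algebra.lmul k C) τ).comp (jal j))
          (TensorProduct.map (1 - p) ψ : Module.End k (C ⊗[k] V)) := by
      rw [tens_res, trc_tens Γ _ _ _ hec, hψ]
    refine ⟨(TensorProduct.map (jal j).toLinearMap 1) ∘ₗ Ψ ∘ₗ (TensorProduct.map r 1) +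
      (TensorProduct.map (1 - p) ψ : Module.End k (C ⊗[k] V)), ?_⟩
    rw [trc_add, ← h1, ← h2]
    refine TensorProduct.ext' fun c v => ?_
    simp only [LinearMap.sub_apply, LinearMap.add_apply, TensorProduct.map_tmul,
      Module.End.one_apply, TensorProduct.sub_tmul, TensorProduct.tmul_sub]
    abel
  · intro d
    have h := tens_comm ((Algebra.lmul k C).comp (jal j)) (τ.comp (jal j)) (1 - p) hec e
      (fun d => he d) d
    rw [← tens_res] at h
    exact h

end Two

end Pool.Agent.H42.HA
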