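import Pool.Agent.H42.HA.NZ

/-!
# A finite-dimensional Hopf algebra is projective over its Hopf subalgebras: dimensions
-/

open CategoryTheory TensorProduct Coalgebra HopfAlgebra WithConv
open Pool.Agent.H26.FG Pool.Agent.H26.FG.LSaux

universe u v w

namespace Pool.Agent.H42.HA

section Arith

lemma pow_lower (q m : ℕ) : q ^ (m + 1) + (m + 1) * q ^ m ≤ (q + 1) ^ (m + 1) := by
  induction m with
  | zero => simp
  | succ m ih =>
    have h1 : (q + 1) ^ (m + 1 + 1) = (q + 1) * (q + 1) ^ (m + 1) := by ring
    rw [h1]
    have h2 := Nat.mul_le_mul_left (q + 1) ih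
    refine le_trans ?_ h2
    have h3 : (q + 1) * (q ^ (m + 1) + (m + 1) * q ^ m) =
        q ^ (m + 1 + 1) + (m + 1 + 1) * q ^ (m + 1) + (m + 1) * q ^ m := by ring
    rw [h3]
    exact Nat.le_add_right _ _

lemma arith {n q i r : ℕ} (hq : q < n) (h : ∀ m : ℕ, i * n ^ m ≤ r * n ^ m + q ^ (m + 1)) :
    i ≤ r := by
  by_contra hir
  push Not at hir
  have h1 : ∀ m : ℕ, n ^ m ≤ q ^ (m + 1) := by
    intro m
    have h2 := h m
    have h3 : (r + 1) * n ^ m ≤ i * n ^ m := Nat.mul_le_mul_right _ hir
    have h4 : (r + 1) * n ^ m = r * n ^ m + n ^ m := by ring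
    omega
  have h5 : (q + 1) ^ (q ^ 2 + 1) ≤ q ^ (q ^ 2 + 1 + 1) :=
    le_trans (Nat.pow_le_pow_left hq _) (h1 _)
  have h6 := pow_lower q (q ^ 2)
  have h7 : q ^ (q ^ 2 + 1 + 1) ≤ (q ^ 2 + 1) * q ^ (q ^ 2) := by
    have : q ^ (q ^ 2 + 1 + 1) = q ^ 2 * q ^ (q ^ 2) := by ring
    rw [this]
    exact Nat.mul_le_mul_right _ (Nat.le_succ _)
  rcases Nat.eq_zero_or_pos q with hq0 | hq0
  · subst hq0
    have := h1 0
    simp at this
  · have h8 : 0 < q ^ (q ^ 2 + 1) := pow_pos hq0 _
    omega

end Arith

section Rank

variable {k : Type u} [Field k]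

lemma finrank_range_map_le {V V' W W' : Type*} [AddCommGroup V] [Module k V] [Module.Finite k V]
    [AddCommGroup V'] [Module k V'] [Module.Finite k V']
    [AddCommGroup W] [Module k W] [Module.Finite k W]
    [AddCommGroup W'] [Module k W'] [Module.Finite k W'] (f : V →ₗ[k] V') (g : W →ₗ[k] W') :
    Module.finrank k (LinearMap.range (TensorProduct.map f g)) ≤
      Module.finrank k (LinearMap.range f) * Module.finrank k (LinearMap.range g) := by
  rw [← Module.finrank_tensorProduct]
  have h1 : TensorProduct.map f g =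
      (TensorProduct.map (LinearMap.range f).subtype (LinearMap.range g).subtype) ∘ₗ
        (TensorProduct.map f.rangeRestrict g.rangeRestrict) := by
    refine TensorProduct.ext' fun x y => ?_
    rfl
  have h2 : LinearMap.range (TensorProduct.map f g) ≤
      LinearMap.range (TensorProduct.map (LinearMap.range f).subtype
        (LinearMap.range g).subtype) := by
    conv_lhs => rw [h1]
    exact LinearMap.range_comp_le_range _ _
  exact (Submodule.finrank_mono h2).trans (LinearMap.finrank_range_le _)

lemma finrank_range_comp_le_right {V V' W : Type*} [AddCommGroup V] [Module k V]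
    [Module.Finite k V]
    [AddCommGroup V'] [Module k V'] [Module.Finite k V']
    [AddCommGroup W] [Module k W] [Module.Finite k W] (f : V →ₗ[k] V') (g : V' →ₗ[k] W) :
    Module.finrank k (LinearMap.range (g ∘ₗ f)) ≤ Module.finrank k (LinearMap.range f) := by
  rw [LinearMap.range_comp]
  exact Submodule.finrank_map_le _ _

end Rank

section Main

variable {k : Type u} [Field k] {D C : Type u} [Ring D] [HopfAlgebra k D] [Module.Finite k D]
  [Ring C] [HopfAlgebra k C] [Module.Finite k C]

/-- An invariant of `D` in `C` is a multiple of the integral of `D`. -/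
theorem inv_eq_range (j : D →ₐc[k] C) (hj : Function.Injective j) {Γ : D}
    (hΓ : ∀ d : D, Γ * d = counit (R := k) d • Γ) (hΓ0 : Γ ≠ 0) (c : C)
    (hc : ∀ d : D, j d * c = counit (R := k) d • c) : ∃ x : C, c = j (antipode k Γ) * x := by
  classical
  -- a functional with value one
  obtain ⟨γ, hγ⟩ : ∃ γ : D →ₗ[k] k, γ Γ = 1 := by
    obtain ⟨f, hf⟩ : ∃ f : D →ₗ[k] k, f Γ ≠ 0 := by
      by_contra h
      push Not at h
      exact hΓ0 ((Module.forall_dual_apply_eq_zero_iff k Γ).1 h)
    exact ⟨(f Γ)⁻¹ • f, by
      rw [LinearMap.smul_apply, smul_eq_mul, inv_mul_cancel₀ hf]⟩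
  obtain ⟨r, hr, hr1⟩ := KT_retL hj
  set n := Module.finrank k C with hn
  set d := Module.finrank k D with hd
  set p : Module.End k C := (jal j).toLinearMap ∘ₗ r with hp
  have hnt : Nontrivial D := HaF_nontrivial k D
  have hd0 : 0 < d := Module.finrank_pos
  have hdn : d ≤ n := LinearMap.finrank_le_finrank_of_injective (f := (jal j).toLinearMap) hj
  have hrk : Module.finrank k (LinearMap.range (1 - p : Module.End k C)) ≤ n - d := by
    have h1 := LinearMap.finrank_range_add_finrank_ker (1 - p : Module.End k C)
    have h2 : LinearMap.range (jal j).toLinearMap ≤ LinearMap.ker (1 - p : Module.End k C) := by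
      rintro _ ⟨x, rfl⟩
      rw [LinearMap.mem_ker]
      change j x - j (r (j x)) = 0
      rw [hr1, sub_self]
    have h3 := Submodule.finrank_mono h2
    rw [LinearMap.finrank_range_of_inj (f := (jal j).toLinearMap) hj] at h3
    omega
  have key : ∀ m : ℕ, ∃ (V : Type u) (_ : AddCommGroup V) (_ : Module k V)
      (_ : Module.Finite k V) (τ : C →ₐ[k] Module.End k V) (e : Module.End k V)
      (ψ : Module.End k V), (∀ d : D, e * τ (j d) = τ (j d) * e) ∧
      1 - e = trc Γ (τ.comp (jal j)) ψ ∧ Module.finrank k V = n ^ m ∧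
      Module.finrank k (LinearMap.range e) ≤ (n - d) ^ m := by
    intro m
    induction m with
    | zero =>
      refine ⟨k, inferInstance, inferInstance, inferInstance,
        (Algebra.lmul k k).comp (Bialgebra.counitAlgHom k C), 1, 0, ?_, ?_, ?_, ?_⟩
      · intro d
        rw [one_mul, mul_one]
      · rw [sub_self]
        unfold trc sw
        symm
        refine Finset.sum_eq_zero fun i _ => ?_
        dsimp only
        rw [mul_zero, zero_mul]
      · rw [pow_zero]
        exact Module.finrank_self k
      · rw [pow_zero]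
        exact (Submodule.finrank_le _).trans (Module.finrank_self k).le
    | succ m ih =>
      obtain ⟨V, _, _, _, τ, e, ψ, he, hψ, hV, hrange⟩ := ih
      obtain ⟨⟨ψ', hψ'⟩, he'⟩ := nz_step j hΓ hγ r hr τ e he ψ hψ
      refine ⟨C ⊗[k] V, inferInstance, inferInstance, inferInstance,
        tens (Algebra.lmul k C) τ, _, ψ', he', hψ', ?_, ?_⟩
      · rw [Module.finrank_tensorProduct, hV, ← hn, pow_succ, mul_comm]
      · refine (finrank_range_map_le _ _).trans ?_
        rw [pow_succ, mul_comm]
        exact Nat.mul_le_mul hrange hrk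
  -- the invariants of `C`
  set I := inv ((Algebra.lmul k C).comp (jal j)) with hI
  set R := LinearMap.range (Algebra.lmul k C (j (antipode k Γ))) with hR
  have hineq : ∀ m : ℕ, Module.finrank k I * n ^ m ≤
      Module.finrank k R * n ^ m + (n - d) ^ (m + 1) := by
    intro m
    obtain ⟨V, _, _, _, τ, e, ψ, he, hψ, hV, hrange⟩ := key m
    obtain ⟨⟨ψ', hψ'⟩, he'⟩ := nz_step j hΓ hγ r hr τ e he ψ hψ
    set T := tens (Algebra.lmul k C) τ with hT
    set e' := (TensorProduct.map (1 - p : Module.End k C) e : Module.End k (C ⊗[k] V)) with he''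
    have h1 : inv (T.comp (jal j)) ≤
        LinearMap.range (T (j (antipode k Γ))) ⊔ LinearMap.range e' := by
      intro v hv
      have h2 : v = (1 - e') v + e' v := by
        rw [LinearMap.sub_apply, Module.End.one_apply, sub_add_cancel]
      rw [h2]
      refine Submodule.add_mem_sup ?_ ⟨v, rfl⟩
      have h3 : (1 - e') v = trc Γ (T.comp (jal j)) ψ' v :=
        congrArg (fun f : Module.End k (C ⊗[k] V) => f v) hψ'
      rw [h3, trc_inv Γ _ _ hv]
      exact ⟨ψ' v, rfl⟩
    have h4 : Module.finrank k I * n ^ m ≤ Module.finrank k (inv (T.comp (jal j))) := by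
      rw [← hV, ← Module.finrank_tensorProduct]
      let F : I ⊗[k] V →ₗ[k] C ⊗[k] V :=
        Phi τ.toLinearMap ∘ₗ TensorProduct.map I.subtype LinearMap.id
      have hF : ∀ t, F t ∈ inv (T.comp (jal j)) := by
        intro t
        induction t using TensorProduct.induction_on with
        | zero => rw [map_zero]; exact Submodule.zero_mem _
        | add x y hx hy => rw [map_add]; exact Submodule.add_mem _ hx hy
        | tmul x v =>
          intro d
          have h5 := LinearMap.congr_fun (Phi_equiv τ (j d)) ((x : C) ⊗ₜ v)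
          have h6 : (j d) * (x : C) = counit (R := k) d • (x : C) := x.2 d
          change T (j d) (Phi τ.toLinearMap ((x : C) ⊗ₜ v)) =
            counit (R := k) d • (Phi τ.toLinearMap ((x : C) ⊗ₜ v))
          refine h5.trans ?_
          change Phi τ.toLinearMap (((j d) * (x : C)) ⊗ₜ v) = _
          rw [h6, ← TensorProduct.smul_tmul', map_smul]
      have hFi : Function.Injective F := by
        have h5 : Function.Injective (TensorProduct.map I.subtype
            (LinearMap.id : V →ₗ[k] V)) :=
          TensorProduct.map_injective_of_flat_flat I.subtype (LinearMap.id : V →ₗ[k] V)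
            Subtype.val_injective (fun _ _ h => h)
        exact (PhiE τ).injective.comp h5
      refine LinearMap.finrank_le_finrank_of_injective (f := F.codRestrict _ hF) ?_
      intro x y hxy
      exact hFi (congrArg Subtype.val hxy)
    have h7 : Module.finrank k (LinearMap.range (T (j (antipode k Γ)))) ≤
        Module.finrank k R * n ^ m := by
      have h8 : T (j (antipode k Γ)) = Phi τ.toLinearMap ∘ₗ
          ((TensorProduct.map (Algebra.lmul k C (j (antipode k Γ))) LinearMap.id) ∘ₗ
            Theta τ) := by
        rw [← Theta_equiv τ (j (antipode k Γ))]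
        refine LinearMap.ext fun t => ?_
        rw [LinearMap.comp_apply, LinearMap.comp_apply, Phi_Theta]
      rw [h8]
      refine (finrank_range_comp_le_right _ _).trans ?_
      refine (Submodule.finrank_mono (LinearMap.range_comp_le_range _ _)).trans ?_
      refine (finrank_range_map_le _ _).trans ?_
      refine Nat.mul_le_mul le_rfl ?_
      rw [← hV]
      exact Submodule.finrank_le _
    have h9 : Module.finrank k (LinearMap.range e') ≤ (n - d) ^ (m + 1) := by
      refine (finrank_range_map_le _ _).trans ?_
      rw [pow_succ, mul_comm]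
      exact Nat.mul_le_mul hrange hrk
    refine h4.trans ((Submodule.finrank_mono h1).trans ?_)
    refine (Submodule.finrank_add_le_finrank_add_finrank _ _).trans ?_
    exact Nat.add_le_add h7 h9
  have hle : R ≤ I := by
    rintro _ ⟨x, rfl⟩ d
    change j d * (j (antipode k Γ) * x) = counit (R := k) d • (j (antipode k Γ) * x)
    obtain ⟨-, -, -, -, hS⟩ := larson_sweedler k D
    obtain ⟨d', rfl⟩ := hS.2 d
    rw [← mul_assoc, ← map_mul, ← HopfAlgebra.antipode_mul_antidistrib, hΓ, map_smul, map_smul,
      HopfAlgebra.counit_antipode, smul_mul_assoc]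
  have hRI : R = I := by
    refine Submodule.eq_of_le_of_finrank_le hle (arith (Nat.sub_lt (by omega) hd0) hineq)
  have hcI : c ∈ I := hc
  rw [← hRI] at hcI
  obtain ⟨x, hx⟩ := hcI
  exact ⟨x, hx.symm⟩

end Main

end Pool.Agent.H42.HA
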