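import Pool.Agent.H42.HA.Rep

/-!
# The tensor identity
-/

open CategoryTheory TensorProduct Coalgebra HopfAlgebra WithConv
open Pool.Agent.H26.FG Pool.Agent.H26.FG.LSaux

universe u v w

namespace Pool.Agent.H42.HA

variable {k : Type u} [Field k] {D : Type u} [Ring D] [HopfAlgebra k D]
  {V : Type v} [AddCommGroup V] [Module k V] {W : Type w} [AddCommGroup W] [Module k W]

lemma sw_mul_eq {M : Type*} [AddCommGroup M] [Module k M] {F : D → D → M} (hF : Bi k F)
    (c d : D) : sw k F (c * d) =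
      sw k (fun x y => sw k (fun a b => F (x * a) (y * b)) d) c := by
  have h1 : comul (R := k) (c * d) = ∑ ij ∈ (ℛ k c).index ×ˢ (ℛ k d).index,
      ((ℛ k c).left ij.1 * (ℛ k d).left ij.2) ⊗ₜ[k] ((ℛ k c).right ij.1 * (ℛ k d).right ij.2) := by
    rw [Bialgebra.comul_mul]
    conv_lhs => rw [← (ℛ k c).eq, ← (ℛ k d).eq]
    rw [Finset.sum_mul_sum, Finset.sum_product]
    simp only [Algebra.TensorProduct.tmul_mul_tmul]
  rw [hF.sw_eq h1, Finset.sum_product]
  rfl

lemma Phi_bi (σ : D →ₗ[k] Module.End k V) (v : V) :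
    Bi k (fun x y : D => (x ⊗ₜ[k] σ y v : D ⊗[k] V)) := by
  constructor
  · intro x x' y; rw [TensorProduct.add_tmul]
  · intro c x y; rw [TensorProduct.smul_tmul']
  · intro x y y'; rw [map_add, LinearMap.add_apply, TensorProduct.tmul_add]
  · intro c x y; rw [map_smul, LinearMap.smul_apply, TensorProduct.tmul_smul]

/-- `d ⊗ v ↦ ∑ d₁ ⊗ σ(d₂) v`. -/
noncomputable def Phi (σ : D →ₗ[k] Module.End k V) : D ⊗[k] V →ₗ[k] D ⊗[k] V :=
  TensorProduct.lift (LinearMap.mk₂ k (fun d v => sw k (fun x y => x ⊗ₜ[k] σ y v) d)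
    (fun d d' v => by
      rw [(Phi_bi σ v).sw_lift, (Phi_bi σ v).sw_lift, (Phi_bi σ v).sw_lift, map_add, map_add])
    (fun c d v => by
      rw [(Phi_bi σ v).sw_lift, (Phi_bi σ v).sw_lift, map_smul, map_smul])
    (fun d v v' => by
      unfold sw
      rw [← Finset.sum_add_distrib]
      exact Finset.sum_congr rfl fun i _ => by
        dsimp only
        rw [map_add, TensorProduct.tmul_add])
    (fun c d v => by
      unfold sw
      rw [Finset.smul_sum]
      exact Finset.sum_congr rfl fun i _ => by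
        dsimp only
        rw [map_smul, TensorProduct.tmul_smul]))

lemma Phi_tmul (σ : D →ₗ[k] Module.End k V) (d : D) (v : V) :
    Phi σ (d ⊗ₜ v) = sw k (fun x y => x ⊗ₜ[k] σ y v) d := rfl

/-- The inverse of `Phi`. -/
noncomputable abbrev Theta (σ : D →ₐ[k] Module.End k V) : D ⊗[k] V →ₗ[k] D ⊗[k] V :=
  Phi (σ.toLinearMap ∘ₗ antipode k)

lemma Phi_Theta (σ : D →ₐ[k] Module.End k V) (t : D ⊗[k] V) :
    Phi σ.toLinearMap (Theta σ t) = t := by
  induction t using TensorProduct.induction_on with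
  | zero => rw [map_zero, map_zero]
  | add x y hx hy => rw [map_add, map_add, hx, hy]
  | tmul d v =>
    rw [Theta, Phi_tmul, map_sw]
    simp only [Phi_tmul, LinearMap.comp_apply, AlgHom.toLinearMap_apply]
    have hT : Tri k (fun a b y : D => (a ⊗ₜ[k] σ b (σ (antipode k y) v) : D ⊗[k] V)) := by
      constructor <;> intros <;> simp [TensorProduct.add_tmul, TensorProduct.tmul_add,
        TensorProduct.smul_tmul']
    rw [coas hT]
    have h1 : ∀ a z : D, sw k (fun b y => (a ⊗ₜ[k] σ b (σ (antipode k y) v) : D ⊗[k] V)) z =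
        counit (R := k) z • ((TensorProduct.mk k D V).flip v a) := by
      intro a z
      let L : D →ₗ[k] D ⊗[k] V := TensorProduct.mk k D V a ∘ₗ (σ.toLinearMap.flip v)
      have h2 := map_sw (k := k) L (fun x y => x * antipode k y) z
      rw [sw_mul_S, map_smul] at h2
      have h3 : L 1 = (TensorProduct.mk k D V).flip v a := by
        change a ⊗ₜ[k] σ 1 v = _
        rw [map_one]
        rfl
      rw [h3] at h2
      rw [h2]
      congr 1
      funext b y
      change _ = a ⊗ₜ[k] σ (b * antipode k y) v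
      rw [map_mul]
      rfl
    simp only [h1]
    exact sw_eps_r (k := k) ((TensorProduct.mk k D V).flip v) d

lemma Theta_Phi (σ : D →ₐ[k] Module.End k V) (t : D ⊗[k] V) :
    Theta σ (Phi σ.toLinearMap t) = t := by
  induction t using TensorProduct.induction_on with
  | zero => rw [map_zero, map_zero]
  | add x y hx hy => rw [map_add, map_add, hx, hy]
  | tmul d v =>
    rw [Phi_tmul, map_sw]
    simp only [Theta, Phi_tmul, LinearMap.comp_apply, AlgHom.toLinearMap_apply]
    have hT : Tri k (fun a b y : D => (a ⊗ₜ[k] σ (antipode k b) (σ y v) : D ⊗[k] V)) := by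
      constructor <;> intros <;> simp [TensorProduct.add_tmul, TensorProduct.tmul_add,
        TensorProduct.smul_tmul']
    rw [coas hT]
    have h1 : ∀ a z : D, sw k (fun b y => (a ⊗ₜ[k] σ (antipode k b) (σ y v) : D ⊗[k] V)) z =
        counit (R := k) z • ((TensorProduct.mk k D V).flip v a) := by
      intro a z
      let L : D →ₗ[k] D ⊗[k] V := TensorProduct.mk k D V a ∘ₗ (σ.toLinearMap.flip v)
      have h2 := map_sw (k := k) L (fun x y => antipode k x * y) z
      rw [sw_S_mul, map_smul] at h2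
      have h3 : L 1 = (TensorProduct.mk k D V).flip v a := by
        change a ⊗ₜ[k] σ 1 v = _
        rw [map_one]
        rfl
      rw [h3] at h2
      rw [h2]
      congr 1
      funext b y
      change _ = a ⊗ₜ[k] σ (antipode k b * y) v
      rw [map_mul]
      rfl
    simp only [h1]
    exact sw_eps_r (k := k) ((TensorProduct.mk k D V).flip v) d

lemma Phi_equiv (σ : D →ₐ[k] Module.End k V) (d : D) :
    tens (Algebra.lmul k D) σ d ∘ₗ Phi σ.toLinearMap =
      Phi σ.toLinearMap ∘ₗ (TensorProduct.map (Algebra.lmul k D d) LinearMap.id) := by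
  refine TensorProduct.ext' fun c v => ?_
  rw [LinearMap.comp_apply, LinearMap.comp_apply, Phi_tmul, TensorProduct.map_tmul]
  change _ = Phi σ.toLinearMap ((d * c) ⊗ₜ v)
  rw [Phi_tmul, sw_mul_eq (Phi_bi σ.toLinearMap v), tens_apply]
  unfold sw
  rw [LinearMap.sum_apply]
  refine Finset.sum_congr rfl fun i _ => ?_
  rw [map_sum]
  refine Finset.sum_congr rfl fun j _ => ?_
  dsimp only
  rw [TensorProduct.map_tmul]
  change _ = ((ℛ k d).left i * (ℛ k c).left j) ⊗ₜ[k] σ ((ℛ k d).right i * (ℛ k c).right j) v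
  rw [map_mul]
  rfl

/-- The tensor identity as an equivalence. -/
noncomputable def PhiE (σ : D →ₐ[k] Module.End k V) : (D ⊗[k] V) ≃ₗ[k] (D ⊗[k] V) :=
  LinearEquiv.ofLinearMap (Phi σ.toLinearMap) (Theta σ) (LinearMap.ext (Phi_Theta σ))
    (LinearMap.ext (Theta_Phi σ))

lemma Theta_equiv (σ : D →ₐ[k] Module.End k V) (d : D) :
    Theta σ ∘ₗ tens (Algebra.lmul k D) σ d =
      (TensorProduct.map (Algebra.lmul k D d) LinearMap.id) ∘ₗ Theta σ := by
  refine LinearMap.ext fun t => ?_
  have h := LinearMap.congr_fun (Phi_equiv σ d) (Theta σ t)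
  rw [LinearMap.comp_apply, LinearMap.comp_apply, Phi_Theta] at h
  rw [LinearMap.comp_apply, h, Theta_Phi]
  rfl

end Pool.Agent.H42.HA
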