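import Pool.Agent.H42.HA.Cen

/-!
# Unipotent actions: extensions
-/

open CategoryTheory TensorProduct Coalgebra HopfAlgebra WithConv
open Pool.Agent.H26.FG Pool.Agent.H26.FG.LSaux

universe u

namespace Pool.Agent.H42.HA

variable {k : Type u} [Field k] {A C B : Type u} [Ring A] [HopfAlgebra k A]
  [Ring C] [HopfAlgebra k C] [Ring B] [HopfAlgebra k B]

/-- The subalgebra generated by a primitive element is a Hopf subalgebra. -/
theorem exists_hopf_adjoin [Module.Finite k A] (w : A)
    (hw : comul (R := k) w = w ⊗ₜ[k] 1 + 1 ⊗ₜ[k] w) :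
    ∃ (A₁ : Type u) (_ : Ring A₁) (_ : HopfAlgebra k A₁) (_ : Module.Finite k A₁)
      (j : A₁ →ₐc[k] A), Function.Injective j ∧
        ∀ a : A, (∃ a₁, j a₁ = a) ↔ a ∈ Algebra.adjoin k {w} := by
  have hwS : w ∈ Algebra.adjoin k {w} := Algebra.subset_adjoin rfl
  have hle : ∀ t ∈ (HaF_T (k := k) (Algebra.adjoin k {w})).range,
      t ∈ Submodule.span k {y : A ⊗[k] A | ∃ b ∈ Algebra.adjoin k {w},
        ∃ c ∈ Algebra.adjoin k {w}, y = b ⊗ₜ[k] c} := by
    rintro t ⟨s, rfl⟩
    change HaF_T (k := k) (Algebra.adjoin k {w}) s ∈ _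
    induction s using TensorProduct.induction_on with
    | zero => rw [map_zero]; exact Submodule.zero_mem _
    | add x y hx hy => rw [map_add]; exact Submodule.add_mem _ hx hy
    | tmul x y =>
      rw [HaF_T_tmul]
      exact Submodule.subset_span ⟨x, x.2, y, y.2, rfl⟩
  have hanti : antipode k w = - w := by
    have hB : Bi k (fun x y : A => antipode k x * y) := by
      constructor <;> intros <;> simp [add_mul, mul_add]
    have h0 : comul (R := k) w = ∑ i : Fin 2, (![w, 1] i) ⊗ₜ[k] (![1, w] i) := by
      rw [hw, Fin.sum_univ_two]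
      rfl
    have h1 := sw_S_mul (k := k) w
    rw [hB.sw_eq h0, Fin.sum_univ_two] at h1
    simp only [Matrix.cons_val_zero, Matrix.cons_val_one] at h1
    rw [HopfAlgebra.antipode_one, mul_one, one_mul] at h1
    have hε : counit (R := k) w = 0 := by
      have h := Coalgebra.rTensor_counit_comul (R := k) w
      rw [hw, map_add, LinearMap.rTensor_tmul, LinearMap.rTensor_tmul, Bialgebra.counit_one] at h
      have h2 := congrArg (TensorProduct.lid k A) h
      rw [map_add, TensorProduct.lid_tmul, TensorProduct.lid_tmul, one_smul, add_eq_right] at h2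
      have h3 := congrArg (counit (R := k)) h2
      rw [map_smul, Bialgebra.counit_one, map_zero, smul_eq_mul, mul_one] at h3
      exact h3
    rw [hε, zero_smul] at h1
    exact eq_neg_of_add_eq_zero_left h1
  refine exists_hopf_of_subalgebra (Algebra.adjoin k {w}) (fun a ha => ?_) (fun a ha => ?_)
  · apply hle
    have h1 : Algebra.adjoin k {w} ≤
        (HaF_T (k := k) (Algebra.adjoin k {w})).range.comap (Bialgebra.comulAlgHom k A) := by
      rw [Algebra.adjoin_le_iff]
      rintro x hx
      rw [Set.mem_singleton_iff] at hx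
      subst hx
      change comul (R := k) x ∈ (HaF_T (k := k) (Algebra.adjoin k {x})).range
      rw [hw]
      exact add_mem ⟨(⟨x, hwS⟩ : Algebra.adjoin k {x}) ⊗ₜ 1, rfl⟩
        ⟨1 ⊗ₜ (⟨x, hwS⟩ : Algebra.adjoin k {x}), rfl⟩
    exact h1 ha
  · induction ha using Algebra.adjoin_induction with
    | mem x hx =>
      rw [Set.mem_singleton_iff] at hx
      subst hx
      rw [hanti]
      exact neg_mem hwS
    | algebraMap r =>
      rw [Algebra.algebraMap_eq_smul_one, map_smul, HopfAlgebra.antipode_one]
      exact (Algebra.adjoin k {w}).smul_mem (one_mem _) r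
    | add x y _ _ hx hy => rw [map_add]; exact add_mem hx hy
    | mul x y _ _ hx hy => rw [HopfAlgebra.antipode_mul_antidistrib]; exact mul_mem hy hx

/-- The property of the dual passes to quotients. -/
theorem NilDual.quot {I : Type u} [Ring I] [HopfAlgebra k I] (q : A →ₐc[k] I)
    (hq : Function.Surjective q) (hN : NilDual k A) : NilDual k I := by
  obtain ⟨n, hn⟩ := hN
  refine ⟨n, fun l hl hl1 => ?_⟩
  let P : WithConv (I →ₗ[k] k) → WithConv (A →ₗ[k] k) := fun f =>
    toConv (f.ofConv ∘ₗ (AlgHomClass.toAlgHom q).toLinearMap)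
  have hP1 : P 1 = 1 := by
    ext a
    change algebraMap k k (counit (R := k) (q a)) = algebraMap k k (counit (R := k) a)
    rw [h85_counit]
  have hPm : ∀ f g, P (f * g) = P f * P g := by
    intro f g
    ext a
    change LinearMap.mul' k k (TensorProduct.map f.ofConv g.ofConv (comul (R := k) (q a))) =
      LinearMap.mul' k k (TensorProduct.map (f.ofConv ∘ₗ (AlgHomClass.toAlgHom q).toLinearMap)
        (g.ofConv ∘ₗ (AlgHomClass.toAlgHom q).toLinearMap) (comul (R := k) a))
    rw [h85_comul]
    generalize comul (R := k) a = t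
    congr 1
    induction t using TensorProduct.induction_on with
    | zero => simp
    | add x y hx hy => simp only [map_add, hx, hy]
    | tmul x y => rfl
  have hPl : ∀ l : List (WithConv (I →ₗ[k] k)), P l.prod = (l.map P).prod := by
    intro l
    induction l with
    | nil => simpa using hP1
    | cons a l ih => rw [List.prod_cons, hPm, ih, List.map_cons, List.prod_cons]
  have h1 := hn (l.map P) (by simp [hl]) (by
    intro f hf
    obtain ⟨g, hg, rfl⟩ := List.mem_map.1 hf
    change g.ofConv (q 1) = 0
    rw [map_one]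
    exact hl1 g hg)
  rw [← hPl] at h1
  ext i
  obtain ⟨a, rfl⟩ := hq i
  have h2 := congrArg (fun f : WithConv (A →ₗ[k] k) => f a) h1
  exact h2

/-- Unipotent actions pass to quotients. -/
theorem UnipAct.quot {ι : A →ₐc[k] C} (hU : UnipAct ι) {D I : Type u} [Ring D] [HopfAlgebra k D]
    [Ring I] [HopfAlgebra k I] (π : C →ₐc[k] D) (hπ : Function.Surjective π) (q : A →ₐc[k] I)
    (hq : Function.Surjective q) (j : I →ₐc[k] D) (hj : ∀ a, j (q a) = π (ι a)) :
    UnipAct j := by
  obtain ⟨n, hn⟩ := hU
  refine ⟨n, fun l hl hl1 i hi => ?_⟩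
  obtain ⟨a, rfl⟩ := hq i
  have hs : ∀ d, π (Function.surjInv hπ d) = d := Function.surjInv_eq hπ
  have h1 : ∀ l : List D, π (l.map (Function.surjInv hπ)).prod = l.prod := by
    intro l
    induction l with
    | nil => simp
    | cons a l ih => rw [List.map_cons, List.prod_cons, map_mul, ih, hs, List.prod_cons]
  rw [hj, ← h1 l, ← h85_adl, hn _ (by simp [hl]) ?_ a ?_, map_zero]
  · intro c hc
    obtain ⟨d, hd, rfl⟩ := List.mem_map.1 hc
    rw [← h85_counit π, hs]
    exact hl1 d hd
  · rw [← h85_counit q]
    exact hi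

/-- Extensions with a unipotent action on `A`, when the dual of `A` is local. -/
theorem uni_main {A C B : Type u} [Ring A] [HopfAlgebra k A] [Module.Finite k A]
    [Ring C] [HopfAlgebra k C] [Module.Finite k C] [Ring B] [HopfAlgebra k B] [Module.Finite k B]
    {ι : A →ₐc[k] C} {π : C →ₐc[k] B} (hex : HopfExact ι π) (hN : NilDual k A)
    (hU : UnipAct ι) (hB : FGC k B) : FGC k C := by
  obtain ⟨n, hn⟩ : ∃ n, Module.finrank k A = n := ⟨_, rfl⟩
  induction n using Nat.strong_induction_on generalizing A C B with
  | _ n ih =>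
  by_cases htriv : ∀ a : A, counit (R := k) a = 0 → a = 0
  · refine T1_main hex (fun a c => ?_) hB
    have h1 : a = counit (R := k) a • (1 : A) := by
      have h2 := htriv (a - algebraMap k A (counit (R := k) a)) (by
        rw [map_sub, Bialgebra.counit_algebraMap]
        exact sub_self _)
      rw [sub_eq_zero, Algebra.algebraMap_eq_smul_one] at h2
      exact h2
    rw [h1, map_smul, map_one, smul_mul_assoc, mul_smul_comm, one_mul, mul_one]
  · push Not at htriv
    obtain ⟨a₀, ha₀, ha₀'⟩ := htriv
    obtain ⟨w, hw0, hwp, hwc⟩ := exists_central_prim hex.inj hex.adl_mem hN hU a₀ ha₀ ha₀'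
    obtain ⟨A₁, _, _, _, j, hj, hjS⟩ := exists_hopf_adjoin w hwp
    have hcen : ∀ (a : A₁) (c : C), (ι.comp j) a * c = c * (ι.comp j) a := by
      intro a c
      have ha : j a ∈ Algebra.adjoin k {w} := (hjS _).1 ⟨a, rfl⟩
      change ι (j a) * c = c * ι (j a)
      generalize j a = b at ha
      induction ha using Algebra.adjoin_induction with
      | mem x hx =>
        rw [Set.mem_singleton_iff] at hx
        subst hx
        exact (hwc c).symm
      | algebraMap r =>
        rw [AlgHomClass.commutes]
        exact Algebra.commutes r c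
      | add x y _ _ hx hy => rw [map_add, add_mul, mul_add, hx, hy]
      | mul x y _ _ hx hy => rw [map_mul, mul_assoc, hy, ← mul_assoc, hx, mul_assoc]
    have hinj : Function.Injective (ι.comp j) := hex.inj.comp hj
    obtain ⟨D, _, _, _, π₁, hex₁⟩ := exists_exact_of_normal (ι.comp j) hinj
      (fun c a => ⟨counit (R := k) c • a, by
        rw [map_smul, T1M_adl c _ (hcen a)]⟩)
      (fun c a => ⟨counit (R := k) c • a, by
        rw [map_smul, T1M_adr c _ (hcen a)]⟩)
    obtain ⟨π', hπ'⟩ := T1M_factor π₁ hex₁.surj π (by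
      intro c hc
      rw [hex₁.ker] at hc
      rw [hex.ker]
      refine Ideal.span_mono ?_ hc
      rintro _ ⟨a, ha, rfl⟩
      exact ⟨j a, (h85_counit j a).trans ha, rfl⟩)
    obtain ⟨I, _, _, _, q, jj, hq, hjj, hqj⟩ := exists_image (π₁.comp ι)
    have hex₂ : HopfExact jj π' :=
      exact_image hex π₁ hex₁.surj π' hπ' q jj hq hjj hqj
    have hlt : Module.finrank k I < n := by
      rw [← hn]
      have h1 := LinearMap.finrank_range_add_finrank_ker (AlgHomClass.toAlgHom q).toLinearMap
      have h2 : Module.finrank k (LinearMap.range (AlgHomClass.toAlgHom q).toLinearMap) =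
          Module.finrank k I := by
        have h3 : LinearMap.range (AlgHomClass.toAlgHom q).toLinearMap = ⊤ :=
          LinearMap.range_eq_top.2 hq
        rw [h3]
        exact finrank_top k I
      have h3 : 0 < Module.finrank k (LinearMap.ker (AlgHomClass.toAlgHom q).toLinearMap) := by
        rw [Module.finrank_pos_iff_exists_ne_zero]
        refine ⟨⟨w, ?_⟩, fun h => hw0 (congrArg Subtype.val h)⟩
        rw [LinearMap.mem_ker]
        change q w = 0
        apply hjj
        rw [hqj, map_zero]
        change π₁ (ι w) = 0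
        obtain ⟨a₁, ha₁⟩ := (hjS w).2 (Algebra.subset_adjoin rfl)
        rw [← ha₁]
        change π₁ ((ι.comp j) a₁) = 0
        rw [hex₁.ker]
        refine Ideal.subset_span ⟨a₁, ?_, rfl⟩
        change counit (R := k) a₁ = 0
        rw [← h85_counit j a₁, ha₁]
        have h := Coalgebra.rTensor_counit_comul (R := k) w
        rw [hwp, map_add, LinearMap.rTensor_tmul, LinearMap.rTensor_tmul,
          Bialgebra.counit_one] at h
        have h2 := congrArg (TensorProduct.lid k A) h
        rw [map_add, TensorProduct.lid_tmul, TensorProduct.lid_tmul, one_smul,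
          add_eq_right] at h2
        have h3 := congrArg (counit (R := k)) h2
        rw [map_smul, Bialgebra.counit_one, map_zero, smul_eq_mul, mul_one] at h3
        exact h3
      omega
    have hD : FGC k D := ih _ hlt hex₂ (hN.quot q hq)
      (hU.quot π₁ hex₁.surj q hq jj hqj) hB rfl
    exact T1_main hex₁ hcen hD

end Pool.Agent.H42.HA
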