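import Pool.Agent.H42.HA.Desc3
import Pool.Agent.H42.HA.Uni

/-!
# Reduction of an extension to a Hopf subalgebra with a relative integral
-/

open CategoryTheory TensorProduct Coalgebra HopfAlgebra WithConv
open Pool.Agent.H26.FG Pool.Agent.H26.FG.LSaux

universe u

namespace Pool.Agent.H42.HA

variable {k : Type u} [Field k] {A D C B : Type u} [Ring A] [HopfAlgebra k A]
  [Ring D] [HopfAlgebra k D] [Ring C] [HopfAlgebra k C] [Ring B] [HopfAlgebra k B]

/-- The restriction of an exact sequence to a Hopf subalgebra `D` which contains `A`. -/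
theorem exact_sub [Module.Finite k D] {ι : A →ₐc[k] C} {π : C →ₐc[k] B} (hex : HopfExact ι π)
    (κ : A →ₐc[k] D) (j : D →ₐc[k] C) (hj : Function.Injective j) (hκ : ∀ a, j (κ a) = ι a)
    {I : Type u} [Ring I] [HopfAlgebra k I] (q : D →ₐc[k] I) (jj : I →ₐc[k] B)
    (hq : Function.Surjective q) (hjj : Function.Injective jj) (hqj : ∀ d, jj (q d) = π (j d)) :
    HopfExact κ q := by
  refine ⟨fun a b h => hex.inj ?_, hq, ?_, ?_, ?_⟩
  · rw [← hκ, ← hκ, h]
  · intro d a
    obtain ⟨a', ha'⟩ := hex.adl_mem (j d) a
    refine ⟨a', hj ?_⟩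
    rw [hκ, ha', h85_adl, hκ]
  · intro d a
    obtain ⟨a', ha'⟩ := hex.adr_mem (j d) a
    refine ⟨a', hj ?_⟩
    rw [hκ, ha', h85_adr, hκ]
  · intro d
    constructor
    · intro h
      have h1 : π (j d) = 0 := by rw [← hqj, h, map_zero]
      rw [hex.ker] at h1
      obtain ⟨r, hr, hr1⟩ := KT_retR (k := k) (ι := j) hj
      have h2 : r (j d) ∈ Ideal.span (κ '' {a : A | counit (R := k) a = 0}) := by
        have h3 : ∀ x ∈ Ideal.span (ι '' {a : A | counit (R := k) a = 0}),
            r x ∈ Ideal.span (κ '' {a : A | counit (R := k) a = 0}) := by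
          intro x hx
          refine Submodule.closure_induction (p := fun y _ => r y ∈ _) ?_ ?_ ?_ hx
          · rw [map_zero]
            exact zero_mem _
          · intro x y _ _ hx hy
            rw [map_add]
            exact add_mem hx hy
          · rintro c _ ⟨a, ha, rfl⟩
            rw [smul_eq_mul, ← hκ, hr]
            exact Ideal.mul_mem_left _ _ (Ideal.subset_span ⟨a, ha, rfl⟩)
        exact h3 _ h1
      rwa [hr1] at h2
    · intro h
      apply hjj
      rw [hqj, map_zero, hex.ker]
      have h3 : ∀ x ∈ Ideal.span (κ '' {a : A | counit (R := k) a = 0}),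
          j x ∈ Ideal.span (ι '' {a : A | counit (R := k) a = 0}) := by
        intro x hx
        refine Submodule.span_induction (p := fun y _ => j y ∈ _) ?_ ?_ ?_ ?_ hx
        · rintro _ ⟨a, ha, rfl⟩
          rw [hκ]
          exact Ideal.subset_span ⟨a, ha, rfl⟩
        · rw [map_zero]
          exact zero_mem _
        · intro x y _ _ hx hy
          rw [map_add]
          exact add_mem hx hy
        · intro c x _ hx
          rw [smul_eq_mul, map_mul]
          exact Ideal.mul_mem_left _ _ hx
      exact h3 d h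

/-- Extensions in which a Hopf subalgebra `D` with a relative integral acts unipotently. -/
theorem rel_main [Module.Finite k A] [Module.Finite k D] [Module.Finite k C] [Module.Finite k B]
    {ι : A →ₐc[k] C} {π : C →ₐc[k] B} (hex : HopfExact ι π)
    (κ : A →ₐc[k] D) (j : D →ₐc[k] C) (hj : Function.Injective j) (hκ : ∀ a, j (κ a) = ι a)
    {t : C} (ht : RelInt j t) (hε : counit (R := k) t = 1) (hN : NilDual k A)
    (hU : UnipAct κ) (hB : FGC k B) : FGC k C := by
  obtain ⟨I, _, _, _, q, jj, hq, hjj, hqj⟩ := exists_image (π.comp j)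
  have hex' : HopfExact κ q := exact_sub hex κ j hj hκ q jj hq hjj hqj
  exact FGC_desc j hj ht hε (uni_main hex' hN hU (FGC_sub jj hjj hB))

end Pool.Agent.H42.HA
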