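import Pool.Agent.H42.HA.Uni

/-!
# Representations of Hopf algebras: tensor products, relative traces
-/

open CategoryTheory TensorProduct Coalgebra HopfAlgebra WithConv
open Pool.Agent.H26.FG Pool.Agent.H26.FG.LSaux

universe u v w

namespace Pool.Agent.H42.HA

section Tens

variable {k : Type u} [Field k] {D : Type u} [Ring D] [HopfAlgebra k D]
  {V : Type v} [AddCommGroup V] [Module k V] {W : Type w} [AddCommGroup W] [Module k W]

/-- The tensor product of two representations. -/
noncomputable def tens (ρ : D →ₐ[k] Module.End k V) (σ : D →ₐ[k] Module.End k W) :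
    D →ₐ[k] Module.End k (V ⊗[k] W) :=
  (Module.endTensorEndAlgHom (R := k)).comp
    ((Algebra.TensorProduct.map ρ σ).comp (Bialgebra.comulAlgHom k D))

lemma tens_apply (ρ : D →ₐ[k] Module.End k V) (σ : D →ₐ[k] Module.End k W) (d : D) :
    tens ρ σ d = sw k (fun x y => (TensorProduct.map (ρ x) (σ y) : Module.End k (V ⊗[k] W))) d := by
  change (Module.endTensorEndAlgHom (R := k)) (Algebra.TensorProduct.map ρ σ
    (comul (R := k) d)) = _
  rw [sw_comul]
  unfold sw
  rw [map_sum, map_sum]
  rfl

/-- The relative trace `ψ ↦ ∑ S(Γ₁) ψ Γ₂`. -/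
noncomputable def trc (Γ : D) (ρ : D →ₐ[k] Module.End k V) (ψ : Module.End k V) : Module.End k V :=
  sw k (fun x y => ρ (antipode k x) * ψ * ρ y) Γ

lemma trc_comp (Γ : D) (ρ : D →ₐ[k] Module.End k V) (σ : D →ₐ[k] Module.End k W)
    (α : V →ₗ[k] W) (β : W →ₗ[k] V) (hα : ∀ d, α ∘ₗ ρ d = σ d ∘ₗ α)
    (hβ : ∀ d, β ∘ₗ σ d = ρ d ∘ₗ β) (ψ : Module.End k V) :
    α ∘ₗ trc Γ ρ ψ ∘ₗ β = trc Γ σ (α ∘ₗ ψ ∘ₗ β) := by
  refine LinearMap.ext fun w => ?_
  unfold trc sw
  simp only [LinearMap.comp_apply, LinearMap.sum_apply, map_sum, Module.End.mul_apply]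
  refine Finset.sum_congr rfl fun i _ => ?_
  have h1 : ∀ d v, α (ρ d v) = σ d (α v) := fun d v => LinearMap.congr_fun (hα d) v
  have h2 : ∀ d v, β (σ d v) = ρ d (β v) := fun d v => LinearMap.congr_fun (hβ d) v
  rw [h1, h2]

lemma trc_tens (Γ : D) (ρ : D →ₐ[k] Module.End k V) (σ : D →ₐ[k] Module.End k W)
    (φ : Module.End k V) (hφ : ∀ d, φ * ρ d = ρ d * φ) (ψ : Module.End k W) :
    trc Γ (tens ρ σ) (TensorProduct.map φ ψ : Module.End k (V ⊗[k] W)) =
      (TensorProduct.map φ (trc Γ σ ψ) : Module.End k (V ⊗[k] W)) := by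
  let F : D → D → D → D → Module.End k (V ⊗[k] W) := fun a b c e =>
    (TensorProduct.map (φ * ρ (antipode k b * c)) (σ (antipode k a) * ψ * σ e) :
      Module.End k (V ⊗[k] W))
  have hS : ∀ x : D, tens ρ σ (antipode k x) = sw k (fun a b =>
      (TensorProduct.map (ρ (antipode k b)) (σ (antipode k a)) : Module.End k (V ⊗[k] W))) x := by
    intro x
    have hB : Bi k (fun x y : D => (TensorProduct.map (ρ x) (σ y) :
        Module.End k (V ⊗[k] W))) := by
      constructor
      · intro x x' y; rw [map_add, TensorProduct.map_add_left]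
      · intro c x y; rw [map_smul, TensorProduct.map_smul_left]
      · intro x y y'; rw [map_add, TensorProduct.map_add_right]
      · intro c x y; rw [map_smul, TensorProduct.map_smul_right]
    rw [tens_apply]
    have h := comul_antipode (k := k) x
    unfold sw at h
    rw [hB.sw_eq h]
    rfl
  have h1 : ∀ x y : D, tens ρ σ (antipode k x) * (TensorProduct.map φ ψ :
      Module.End k (V ⊗[k] W)) * tens ρ σ y =
      sw k (fun a b => sw k (fun c e => F a b c e) y) x := by
    intro x y
    rw [hS, tens_apply, sw_mul, sw_mul]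
    congr 1
    funext a b
    rw [mul_sw]
    congr 1
    funext c e
    rw [← TensorProduct.map_mul, ← TensorProduct.map_mul]
    change (TensorProduct.map _ _ : Module.End k (V ⊗[k] W)) = TensorProduct.map _ _
    congr 1
    rw [← hφ, mul_assoc, ← map_mul]
  have hF1 : ∀ a b c : D, ∀ e e' : D, F a b c (e + e') = F a b c e + F a b c e' := by
    intro a b c e e'
    change (TensorProduct.map _ _ : Module.End k (V ⊗[k] W)) = _
    rw [map_add, mul_add, TensorProduct.map_add_right]
  have hF2 : ∀ a b c : D, ∀ (r : k) (e : D), F a b c (r • e) = r • F a b c e := by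
    intro a b c r e
    change (TensorProduct.map _ _ : Module.End k (V ⊗[k] W)) = _
    rw [map_smul, mul_smul_comm, TensorProduct.map_smul_right]
  have hF3 : ∀ a b c c' e : D, F a b (c + c') e = F a b c e + F a b c' e := by
    intro a b c c' e
    change (TensorProduct.map _ _ : Module.End k (V ⊗[k] W)) = _
    rw [mul_add, map_add, mul_add, TensorProduct.map_add_left]
  have hF4 : ∀ a b : D, ∀ (r : k) (c e : D), F a b (r • c) e = r • F a b c e := by
    intro a b r c e
    change (TensorProduct.map _ _ : Module.End k (V ⊗[k] W)) = _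
    rw [mul_smul_comm, map_smul, mul_smul_comm, TensorProduct.map_smul_left]
  have hF5 : ∀ a b b' c e : D, F a (b + b') c e = F a b c e + F a b' c e := by
    intro a b b' c e
    change (TensorProduct.map _ _ : Module.End k (V ⊗[k] W)) = _
    rw [map_add, add_mul, map_add, mul_add, TensorProduct.map_add_left]
  have hF6 : ∀ a : D, ∀ (r : k) (b c e : D), F a (r • b) c e = r • F a b c e := by
    intro a r b c e
    change (TensorProduct.map _ _ : Module.End k (V ⊗[k] W)) = _
    rw [map_smul, smul_mul_assoc, map_smul, mul_smul_comm, TensorProduct.map_smul_left]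
  have hF7 : ∀ a a' b c e : D, F (a + a') b c e = F a b c e + F a' b c e := by
    intro a a' b c e
    change (TensorProduct.map _ _ : Module.End k (V ⊗[k] W)) = _
    rw [map_add, map_add, add_mul, add_mul, TensorProduct.map_add_right]
  have hF8 : ∀ (r : k) (a b c e : D), F (r • a) b c e = r • F a b c e := by
    intro r a b c e
    change (TensorProduct.map _ _ : Module.End k (V ⊗[k] W)) = _
    rw [map_smul, map_smul, smul_mul_assoc, smul_mul_assoc, TensorProduct.map_smul_right]
  have hBF : ∀ a b : D, Bi k (fun c e => F a b c e) := fun a b =>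
    ⟨fun x x' y => hF3 a b x x' y, fun c x y => hF4 a b c x y, fun x y y' => hF1 a b x y y',
      fun c x y => hF2 a b x c y⟩
  have hT : Tri k (fun a b y : D => sw k (fun c e => F a b c e) y) := by
    constructor
    · intro a a' b z
      unfold sw
      rw [← Finset.sum_add_distrib]
      exact Finset.sum_congr rfl fun i _ => hF7 _ _ _ _ _
    · intro r a b z
      unfold sw
      rw [Finset.smul_sum]
      exact Finset.sum_congr rfl fun i _ => hF8 _ _ _ _ _
    · intro a b b' z
      unfold sw
      rw [← Finset.sum_add_distrib]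
      exact Finset.sum_congr rfl fun i _ => hF5 _ _ _ _ _
    · intro r a b z
      unfold sw
      rw [Finset.smul_sum]
      exact Finset.sum_congr rfl fun i _ => hF6 _ _ _ _ _
    · intro a b z z'
      rw [(hBF a b).sw_lift, (hBF a b).sw_lift, (hBF a b).sw_lift, map_add, map_add]
    · intro r a b z
      rw [(hBF a b).sw_lift, (hBF a b).sw_lift, map_smul, map_smul]
  unfold trc
  simp only [h1]
  rw [coas hT]
  have h2 : ∀ a z : D, sw k (fun b y => sw k (fun c e => F a b c e) y) z =
      (TensorProduct.map φ (σ (antipode k a) * ψ * σ z) : Module.End k (V ⊗[k] W)) := by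
    intro a z
    have hT2 : Tri k (fun b c e : D => F a b c e) :=
      ⟨fun x x' y z => hF5 a x x' y z, fun r x y z => hF6 a r x y z,
        fun x y y' z => hF3 a x y y' z, fun r x y z => hF4 a x r y z,
        fun x y z z' => hF1 a x y z z', fun r x y z => hF2 a x y r z⟩
    rw [← coas hT2]
    have h3 : ∀ u e : D, sw k (fun b c => F a b c e) u = counit (R := k) u •
        (TensorProduct.map φ (σ (antipode k a) * ψ * σ e) : Module.End k (V ⊗[k] W)) := by
      intro u e
      let L : D →ₗ[k] Module.End k (V ⊗[k] W) :=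
        { toFun := fun d => (TensorProduct.map (φ * ρ d) (σ (antipode k a) * ψ * σ e) :
            Module.End k (V ⊗[k] W))
          map_add' := fun x y => by rw [map_add, mul_add, TensorProduct.map_add_left]
          map_smul' := fun r x => by
            rw [map_smul, mul_smul_comm, TensorProduct.map_smul_left, RingHom.id_apply] }
      have h4 := map_sw (k := k) L (fun b c => antipode k b * c) u
      rw [sw_S_mul, map_smul] at h4
      have h5 : L 1 = (TensorProduct.map φ (σ (antipode k a) * ψ * σ e) :
          Module.End k (V ⊗[k] W)) := by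
        change (TensorProduct.map (φ * ρ 1) _ : Module.End k (V ⊗[k] W)) = _
        rw [map_one, mul_one]
      rw [h5] at h4
      exact h4.symm
    simp only [h3]
    let L : D →ₗ[k] Module.End k (V ⊗[k] W) :=
      { toFun := fun d => (TensorProduct.map φ (σ (antipode k a) * ψ * σ d) :
          Module.End k (V ⊗[k] W))
        map_add' := fun x y => by rw [map_add, mul_add, TensorProduct.map_add_right]
        map_smul' := fun r x => by
          rw [map_smul, mul_smul_comm, TensorProduct.map_smul_right, RingHom.id_apply] }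
    exact sw_eps_l (k := k) L z
  simp only [h2]
  let L : Module.End k W →ₗ[k] Module.End k (V ⊗[k] W) :=
    { toFun := fun ψ => (TensorProduct.map φ ψ : Module.End k (V ⊗[k] W))
      map_add' := fun x y => TensorProduct.map_add_right _ _ _
      map_smul' := fun r x => TensorProduct.map_smul_right _ _ _ }
  exact (map_sw (k := k) L (fun x y => σ (antipode k x) * ψ * σ y) Γ).symm

/-- The invariants. -/
def inv (ρ : D →ₐ[k] Module.End k V) : Submodule k V where
  carrier := {v | ∀ d, ρ d v = counit (R := k) d • v}
  add_mem' := by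
    intro x y hx hy d
    rw [map_add, hx d, hy d, smul_add]
  zero_mem' := by
    intro d
    rw [map_zero, smul_zero]
  smul_mem' := by
    intro r x hx d
    rw [map_smul, hx d, smul_comm]

lemma trc_inv (Γ : D) (ρ : D →ₐ[k] Module.End k V) (ψ : Module.End k V) {v : V}
    (hv : v ∈ inv ρ) : trc Γ ρ ψ v = ρ (antipode k Γ) (ψ v) := by
  have h1 : trc Γ ρ ψ v = sw k (fun x y => ρ (antipode k x) (ψ (ρ y v))) Γ := by
    unfold trc sw
    simp only [LinearMap.sum_apply, Module.End.mul_apply]
  rw [h1]
  have h2 : ∀ y, ρ y v = counit (R := k) y • v := hv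
  simp only [h2, map_smul]
  exact sw_eps_r (k := k) ((ρ.toLinearMap.flip (ψ v)) ∘ₗ antipode k) Γ

end Tens

end Pool.Agent.H42.HA
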