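import Pool.Agent.H42.HA.DB
import Pool.Agent.H26.FG.T0fwd

/-!
# Shapiro's lemma for Hopf subalgebras; FGC passes to Hopf subalgebras
-/

open CategoryTheory Abelian TensorProduct Coalgebra HopfAlgebra
open scoped ModuleCat
open Pool.Agent.H26.FG Pool.Agent.H26.FG.LSaux

universe u

namespace Pool.Agent.H42.HA

variable {k : Type u} [Field k] {D C : Type u} [Ring D] [HopfAlgebra k D] [Module.Finite k D]
  [Ring C] [HopfAlgebra k C] [Module.Finite k C]

omit [Module.Finite k D] [Module.Finite k C] in
lemma coext_finite (f : D →ₐ[k] C) {n : ℕ} (w : Fin n → C) (φ : Fin n → C →ₗ[k] D)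
    (h2 : ∀ c, ∑ i, f (φ i c) * w i = c) (N : ModuleCat.{u} D) [Module.Finite k N] :
    Module.Finite k ((hT0f_K f.toRingHom).obj N) := by
  let Φ : (hT0f_K f.toRingHom).obj N →ₗ[k] (Fin n → N) :=
    { toFun := fun g i => (ModuleCat.CoextendScalars.equiv f.toRingHom N g) (w i)
      map_add' := fun g g' => by
        funext i
        rfl
      map_smul' := fun c g => by
        funext i
        have h3 : c • g = algebraMap k C c • g := (algebraMap_smul C c g).symm
        rw [h3]
        show (ModuleCat.CoextendScalars.equiv f.toRingHom N g)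
          ((w i * algebraMap k C c : C)) = c • 
            ((ModuleCat.CoextendScalars.equiv f.toRingHom N g) (w i))
        have h4 : w i * algebraMap k C c = f (algebraMap k D c) * w i := by
          rw [AlgHom.commutes, Algebra.commutes]
        rw [h4]
        have h5 : (ModuleCat.CoextendScalars.equiv f.toRingHom N g)
          ((f (algebraMap k D c) * w i : C)) = algebraMap k D c •
            (ModuleCat.CoextendScalars.equiv f.toRingHom N g) (w i) :=
          (ModuleCat.CoextendScalars.equiv f.toRingHom N g).map_smul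
            (algebraMap k D c) (w i)
        rw [h5]
        exact algebraMap_smul D c _ }
  refine Module.Finite.of_injective Φ ?_
  intro g g' hgg
  refine ModuleCat.CoextendScalars.ext (f := f.toRingHom) (LinearMap.ext fun c => ?_)
  have key : ∀ g : (hT0f_K f.toRingHom).obj N,
      (ModuleCat.CoextendScalars.equiv f.toRingHom N g) c =
        ∑ i, φ i c • (ModuleCat.CoextendScalars.equiv f.toRingHom N g) (w i) := by
    intro g
    have h3 : (ModuleCat.CoextendScalars.equiv f.toRingHom N g) c =
      (ModuleCat.CoextendScalars.equiv f.toRingHom N g) (∑ i, (φ i c) •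
        (show (ModuleCat.restrictScalars f.toRingHom).obj (ModuleCat.of C C) from w i)) :=
      congrArg _ (h2 c).symm
    rw [h3, map_sum]
    exact Finset.sum_congr rfl fun i _ => map_smul _ _ _
  rw [key g, key g']
  refine Finset.sum_congr rfl fun i _ => ?_
  congr 1
  exact congrFun hgg i

/-- Shapiro's lemma, surjective part, for a Hopf subalgebra. -/
theorem exists_shapiro_sub (j : D →ₐc[k] C) (hj : Function.Injective j) (N : ModuleCat.{u} D)
    [Module.Finite k N] :
    ∃ (L : ModuleCat.{u} C) (_ : Module.Finite k L)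
      (ψ : ∀ n : ℕ, Ext (triv k C) L n →ₗ[k] Ext (triv k D) N n),
      (∀ (a b c : ℕ) (h : a + b = c) (x : Ext (triv k C) (triv k C) a) (z : Ext (triv k C) L b),
        ψ c (x.comp z h) = (res j x).comp (ψ b z) h) ∧
      ∀ (n : ℕ) (t : Ext (triv k D) N n), ∃ z, ψ n z = t := by
  obtain ⟨n₀, w, φ, hφ, hw⟩ := exists_dual_basis_sub j hj
  let f : D →ₐ[k] C := (j : D →ₐ[k] C)
  have hcol : Limits.PreservesFiniteColimits (hT0f_K f.toRingHom) :=
    hT0f_colim f.toRingHom w (fun i => (φ i).toAddMonoidHom) (fun i a c => hφ i a c) hw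
  have hfx : (Bialgebra.counitAlgHom k C).comp f = Bialgebra.counitAlgHom k D :=
    j.counitAlgHom_comp
  let K := hT0f_K f.toRingHom
  let adj := hT0f_adj f.toRingHom
  let ev : (resF f.toRingHom).obj (K.obj N) ⟶ N := adj.counit.app N
  refine ⟨K.obj N, coext_finite f w φ hw N, fun n =>
    { toFun := fun z => (resX f hfx z).comp (Ext.mk₀ ev) (add_zero n)
      map_add' := fun z z' => by rw [resX_add, Ext.add_comp]
      map_smul' := fun c z => by rw [resX_smul, Ext.smul_comp, RingHom.id_apply] }, ?_, ?_⟩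
  · intro a b c h x z
    show (resX f hfx (x.comp z h)).comp (Ext.mk₀ ev) (add_zero c) =
      (resK f hfx x).comp ((resX f hfx z).comp (Ext.mk₀ ev) (add_zero b)) h
    rw [resX_comp]
    exact Ext.comp_assoc_of_third_deg_zero _ _ _ h
  · intro n t
    let co : triv k C ⟶ K.obj (triv k D) :=
      adj.unit.app (triv k C) ≫ K.map (trvIso _ _ f hfx).inv
    refine ⟨(Ext.mk₀ co).comp (t.mapExactFunctor K) (zero_add n), ?_⟩
    show ((Ext.mk₀ (trvIso _ _ f hfx).hom).comp
      (((Ext.mk₀ co).comp (t.mapExactFunctor K) (zero_add n)).mapExactFunctor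
        (resF f.toRingHom)) (zero_add n)).comp (Ext.mk₀ ev) (add_zero n) = t
    have h1 := map_natTrans (K ⋙ resF f.toRingHom) (𝟭 _) adj.counit t
    rw [map_id_functor] at h1
    have h2 := hT0f_tri adj (trvIso _ _ f hfx)
    rw [Ext.mapExactFunctor_comp, Ext.mapExactFunctor_mk₀, map_comp_functor,
      Ext.comp_assoc_of_third_deg_zero, Ext.comp_assoc_of_third_deg_zero]
    refine (congrArg (fun z => (Ext.mk₀ (trvIso _ _ f hfx).hom).comp
      ((Ext.mk₀ ((resF f.toRingHom).map co)).comp z (zero_add n)) (zero_add n)) h1).trans ?_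
    refine (Ext.mk₀_comp_mk₀_assoc _ _ _).trans ?_
    refine (Ext.mk₀_comp_mk₀_assoc _ _ _).trans ?_
    rw [Category.assoc, h2, Ext.mk₀_id_comp]

/-- FGC passes to Hopf subalgebras. -/
theorem FGC_sub (j : D →ₐc[k] C) (hj : Function.Injective j) (hC : FGC k C) : FGC k D := by
  obtain ⟨S, hS, hS', hGN⟩ := FGC_GN k C hC
  refine FGC_of_GF k D (resCls j '' S) (hS.image _) ?_ fun N hN => ?_
  · rintro _ ⟨s, hs, rfl⟩
    exact (hS' s hs).2
  · obtain ⟨L, hL, ψ, hψ, hsurj⟩ := exists_shapiro_sub j hj N
    obtain ⟨n₀, hn₀⟩ := (hGN L hL).gf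
    refine ⟨n₀, fun n hn => ?_⟩
    intro t _
    obtain ⟨z, rfl⟩ := hsurj n t
    have h1 : z ∈ (EGP k (triv k C) L).Gen S (fun _ => ⊤) n := hn₀ n hn Submodule.mem_top
    have h2 : (EGP k (triv k C) L).Gen S (fun _ => ⊤) n ≤
        ((EGP k (triv k D) N).Gen (resCls j '' S) (fun _ => ⊤) n).comap (ψ n) := by
      refine Submodule.span_le.2 ?_
      rintro _ ⟨s, hs, a, h, v, -, rfl⟩
      refine Submodule.subset_span ⟨resCls j s, ⟨s, hs, rfl⟩, a, h, ψ a v, Submodule.mem_top, ?_⟩
      exact (hψ s.1 a n h s.2 v).symm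
    exact h2 h1

end Pool.Agent.H42.HA
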